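import Pool.Agent.Helper11.TR.LU
import Pool.Agent.Helper98.OS.JB
import Pool.Agent.Helper10.TR.Defs2
import Pool.Agent.Helper10.TR.RedImp

/-!
# TR, block B': the leading coefficients are units at the integral points of `X × A^n` with residue outside `D`
-/

set_option autoImplicit false

namespace Pool.Agent.Helper10.TR

open MvPolynomial Pool.Agent.Helper61.TH Pool.Agent.Helper87.FK Pool.Agent.Helper26.OB
open Pool.Agent.Helper11.TR (cf coeff_fib)
open Pool.Agent.Helper26.OS (norm_eval_le98)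

noncomputable section

theorem coeff_cf_mem98 (A : Subfield ℂ) {ι : Type} [DecidableEq ι] (P : MvPolynomial ι ℂ) (hP : ∀ s, coeff s P ∈ A)
    (v : ι) (j : ℕ) (u : ι →₀ ℕ) : coeff u (cf v j P) ∈ A := by
  rw [cf, coeff_sum]
  refine sum_mem fun s _ => ?_
  split_ifs
  · rw [coeff_monomial]
    split_ifs
    · exact hP s
    · exact A.zero_mem
  · rw [coeff_zero]
    exact A.zero_mem

theorem coeff_rename_mem98 (A : Subfield ℂ) {m n : ℕ} (g : MvPolynomial (Fin m) ℂ) (hg : ∀ s, coeff s g ∈ A)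
    (u : Fin m ⊕ Fin n →₀ ℕ) : coeff u (rename Sum.inl g) ∈ A := by
  by_cases h : coeff u (rename Sum.inl g) = 0
  · rw [h]
    exact A.zero_mem
  · obtain ⟨w, hw, -⟩ := coeff_rename_ne_zero _ _ _ h
    rw [← hw, coeff_rename_mapDomain _ Sum.inl_injective]
    exact hg w

/-- **TR-B'**: the leading coefficients are units at the integral points of `X × A^n` with residue outside `D` -/
theorem lead_unitD (A : Subfield ℂ) (hA : ∀ z : ℂ, IsAlgebraic A z → z ∈ A) {m n : ℕ} (B : Set (MvPolynomial (Fin m) ℂ))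
    (hB : ∀ g ∈ B, ∀ s, coeff s g ∈ A) (D : Finset (MvPolynomial (Fin m) ℂ)) (hD : ∀ g ∈ D, ∀ s, coeff s g ∈ A)
    (P : Fin n → MvPolynomial (Fin m ⊕ Fin n) ℂ) (hP : ∀ r s, coeff s (P r) ∈ A) (e : Fin n → ℕ) (he : ∀ r, 1 ≤ e r)
    (hdeg : ∀ y : Fin m ⊕ Fin n → ℂ, InX B ↑D (fun i => y (Sum.inl i)) → ∀ r,
      (fib (Sum.inr r) y (P r)).natDegree = e r) : ∃ Z : Finset ℂ, (∀ z ∈ Z, z ∈ A) ∧
      ∀ (p : ℕ) [Fact p.Prime] (τ : ℂ →+* PadicAlgCl p), Un τ Z → ∀ y : Fin m ⊕ Fin n → ℂ,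
        (∀ g ∈ B, eval (fun i => y (Sum.inl i)) g = 0) → (∀ v, ‖τ (y v)‖ ≤ 1) →
        (∃ g ∈ D, ‖τ (eval (fun i => y (Sum.inl i)) g)‖ = 1) → ∀ r,
          ‖τ ((fib (Sum.inr r) y (P r)).coeff (e r))‖ = 1 := by
  classical
  set L : Fin n → MvPolynomial (Fin m ⊕ Fin n) ℂ := fun r => cf (Sum.inr r) (e r) (P r) with hL
  have hLev : ∀ r (y : Fin m ⊕ Fin n → ℂ), (fib (Sum.inr r) y (P r)).coeff (e r) = eval y (L r) := by
    intro r y
    have h1 := coeff_fib (RingHom.id ℂ) (Sum.inr r) (e r) (P r) y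
    rw [map_id] at h1
    exact h1
  have hLA : ∀ r s, coeff s (L r) ∈ A := fun r s => coeff_cf_mem98 A (P r) (hP r) _ _ _
  have hev : ∀ (g : MvPolynomial (Fin m) ℂ) (y : Fin m ⊕ Fin n → ℂ),
      eval y (rename Sum.inl g) = eval (fun i => y (Sum.inl i)) g := by
    intro g y
    rw [eval_rename]
    rfl
  have key : ∀ (r : Fin n) (g : D), ∃ (Q : Finset (MvPolynomial (Fin m ⊕ Fin n) ℂ)) (Z : Finset ℂ),
      (∀ q ∈ Q, q ∈ insert (L r) (rename Sum.inl '' B)) ∧ (∀ z ∈ Z, z ∈ A) ∧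
      ∀ (p : ℕ) [Fact p.Prime] (τ : ℂ →+* PadicAlgCl p), Un τ Z → ∀ y : Fin m ⊕ Fin n → ℂ,
        (∀ v, ‖τ (y v)‖ ≤ 1) → (∀ q ∈ Q, ‖τ (eval y q)‖ < 1) →
          ‖τ (eval y (rename Sum.inl (g : MvPolynomial (Fin m) ℂ)))‖ < 1 := by
    intro r g
    refine red_imp A hA _ ?_ _ (coeff_rename_mem98 A g.1 (hD g.1 g.2)) ?_
    · intro q hq s
      rcases hq with rfl | ⟨b, hb, rfl⟩
      · exact hLA r s
      · exact coeff_rename_mem98 A b (hB b hb) s
    · intro y hy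
      rw [hev]
      by_contra hne
      have h1 : ∀ b ∈ B, eval (fun i => y (Sum.inl i)) b = 0 := by
        intro b hb
        rw [← hev]
        exact hy _ (Set.mem_insert_of_mem _ ⟨b, hb, rfl⟩)
      have h2 := hdeg y ⟨h1, g.1, g.2, hne⟩ r
      have h3 := hy (L r) (Set.mem_insert _ _)
      rw [← hLev, ← h2] at h3
      have h4 : fib (Sum.inr r) y (P r) = 0 := Polynomial.leadingCoeff_eq_zero.mp h3
      rw [h4, Polynomial.natDegree_zero] at h2
      have := he r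
      omega
  choose Q Z hQ hZ hQZ using key
  refine ⟨(Finset.univ.biUnion fun r => Finset.univ.biUnion fun g : D => Z r g) ∪
    Finset.univ.biUnion fun r => (L r).support.image fun s => coeff s (L r), ?_, ?_⟩
  · intro z hz
    rcases Finset.mem_union.1 hz with h | h
    · obtain ⟨r, -, hr⟩ := Finset.mem_biUnion.1 h
      obtain ⟨g, -, hg⟩ := Finset.mem_biUnion.1 hr
      exact hZ r g z hg
    · obtain ⟨r, -, hr⟩ := Finset.mem_biUnion.1 h
      obtain ⟨s, -, rfl⟩ := Finset.mem_image.1 hr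
      exact hLA r s
  · intro p _ τ hU y hyB hy hyD r
    obtain ⟨g, hg, hg1⟩ := hyD
    rw [hLev]
    have h1 : ‖τ (eval y (L r))‖ ≤ 1 := by
      refine norm_eval_le98 τ (L r) (fun s => ?_) y hy
      by_cases hs : coeff s (L r) = 0
      · rw [hs, map_zero, norm_zero]
        exact zero_le_one
      · exact (hU _ (Finset.mem_union_right _ (Finset.mem_biUnion.2 ⟨r, Finset.mem_univ r,
          Finset.mem_image.2 ⟨s, mem_support_iff.2 hs, rfl⟩⟩))).1
    refine le_antisymm h1 (not_lt.1 fun h2 => ?_)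
    have hUZ : Un τ (Z r ⟨g, hg⟩) := fun z hz => hU z (Finset.mem_union_left _ (Finset.mem_biUnion.2
      ⟨r, Finset.mem_univ r, Finset.mem_biUnion.2 ⟨⟨g, hg⟩, Finset.mem_univ _, hz⟩⟩))
    have h3 := hQZ r ⟨g, hg⟩ p τ hUZ y hy (by
      intro q hq
      rcases hQ r ⟨g, hg⟩ q hq with rfl | ⟨b, hb, rfl⟩
      · exact h2
      · rw [hev, hyB b hb, map_zero, norm_zero]
        exact one_pos)
    rw [hev, hg1] at h3
    exact lt_irrefl _ h3

end

end Pool.Agent.Helper10.TR
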