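import Pool.Agent.Helper98.TR.D

/-!
# TR, block CY: coordinates in cyclic extensions of distinct prime degrees
-/

set_option autoImplicit false

namespace Pool.Agent.Helper10.TR

open Function

noncomputable section

/-- automorphisms of a subfield extend to the complex numbers -/
theorem exists_ext98 (K : Subfield ℂ) (L : IntermediateField K ℂ) (s : L ≃ₐ[K] L) :
    ∃ σ : ℂ ≃ₐ[K] ℂ, ∀ z : L, σ z = s z := by
  obtain ⟨b, hb⟩ := exists_isTranscendenceBasis L ℂ
  let := IsAlgClosed.isAlgClosure_of_transcendence_basis _ hb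
  let e' : Algebra.adjoin L (Set.range (Subtype.val : b → ℂ)) ≃+*
      Algebra.adjoin L (Set.range (Subtype.val : b → ℂ)) :=
    (hb.1.aevalEquiv.symm.toRingEquiv.trans (MvPolynomial.mapEquiv b s.toRingEquiv)).trans
      hb.1.aevalEquiv.toRingEquiv
  let σ : ℂ ≃+* ℂ := IsAlgClosure.equivOfEquiv ℂ ℂ e'
  have hσ : ∀ z : L, σ z = s z := by
    intro z
    have h4 := IsAlgClosure.equivOfEquiv_algebraMap ℂ ℂ e'
      (algebraMap L (Algebra.adjoin L (Set.range (Subtype.val : b → ℂ))) z)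
    have h5 : e' (algebraMap L (Algebra.adjoin L (Set.range (Subtype.val : b → ℂ))) z) =
        algebraMap L (Algebra.adjoin L (Set.range (Subtype.val : b → ℂ))) (s z) := by
      show hb.1.aevalEquiv (MvPolynomial.map (s.toRingEquiv : L →+* L) (hb.1.aevalEquiv.symm
        (algebraMap L (Algebra.adjoin L (Set.range (Subtype.val : b → ℂ))) z))) = _
      rw [AlgEquiv.commutes, MvPolynomial.algebraMap_eq, MvPolynomial.map_C]
      exact hb.1.aevalEquiv.commutes (s z)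
    rw [h5] at h4
    exact h4
  refine ⟨AlgEquiv.ofRingEquiv (f := σ) fun z => ?_, hσ⟩
  have h1 := hσ (algebraMap K L z)
  rw [s.commutes] at h1
  exact h1

/-- an element outside of finitely many kernels of distinct prime indices -/
theorem avoid98 {G ι : Type} [Group G] [DecidableEq ι] (H : ι → Type) [∀ i, Group (H i)] (ρ : ∀ i, G →* H i)
    (l : ι → ℕ) (hl : Injective l) (hp : ∀ i, (l i).Prime) (hc : ∀ i, Nat.card (H i) = l i)
    (hρ : ∀ i, ∃ g, ρ i g ≠ 1) (S : Finset ι) : ∃ g, ∀ i ∈ S, ρ i g ≠ 1 := by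
  have hpow : ∀ i (h : H i) (m : ℕ), l i ∣ m → h ^ m = 1 := by
    intro i h m hm
    obtain ⟨q, rfl⟩ := hm
    rw [pow_mul, ← hc i, pow_card_eq_one', one_pow]
  induction S using Finset.induction_on with
  | empty => exact ⟨1, fun i hi => absurd hi (Finset.notMem_empty i)⟩
  | insert a S ha ih =>
    obtain ⟨g, hg⟩ := ih
    by_cases h : ρ a g = 1
    · obtain ⟨t, ht⟩ := hρ a
      refine ⟨g * t ^ (∏ i ∈ S, l i), fun i hi => ?_⟩
      rw [map_mul, map_pow]
      rcases Finset.mem_insert.1 hi with rfl | hi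
      · rw [h, one_mul]
        intro h1
        have h2 : orderOf (ρ i t) ∣ l i := by
          rw [← hc i]
          exact orderOf_dvd_natCard _
        rcases (Nat.dvd_prime (hp i)).1 h2 with h3 | h3
        · exact ht (orderOf_eq_one_iff.1 h3)
        · have h4 : l i ∣ ∏ j ∈ S, l j := by
            rw [← h3]
            exact orderOf_dvd_of_pow_eq_one h1
          obtain ⟨j, hj, hij⟩ := (Prime.dvd_finsetProd_iff (hp i).prime l).1 h4
          have h5 := (Nat.prime_dvd_prime_iff_eq (hp i) (hp j)).1 hij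
          exact ha (hl h5 ▸ hj)
      · rw [hpow i _ _ (Finset.dvd_prod_of_mem l hi), mul_one]
        exact hg i hi
    · refine ⟨g, fun i hi => ?_⟩
      rcases Finset.mem_insert.1 hi with rfl | hi
      · exact h
      · exact hg i hi

/-- **TR-CY**: coordinates in cyclic extensions of distinct prime degrees. Let `G` be the group of the `σ` over `K`, `H r`
the stabilizer of `x r` (index `l r`, `σ ^ l r ∈ H r` for all `σ ∈ G`; all elements of `G` outside `H r` have `σ^k ∉ H r` for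
`k` prime to `l r`). `σ_r ∉ H r`, `M = ∏ l r`, `σ = ∏ σ_r ^ (M / l r)` is in no `H r`; then `σ^k (x r) = x r` iff `l r ∣ k`,
so `l r ∣ ln (r + 1) / ln r` -/
theorem cyc_cond (K : Subfield ℂ) {n : ℕ} (e : Fin n → ℕ) (x : Fin n → ℂ) (l : Fin n → ℕ) (hl : Function.Injective l)
    (h : ∀ r, (e r = 1 ∧ x r ∈ K) ∨ ((l r).Prime ∧ e r < l r ∧ x r ∉ K ∧
      ∃ L : IntermediateField K ℂ, IsGalois K L ∧ Module.finrank K L = l r ∧ x r ∈ L)) :
    ∃ σ : ℂ ≃+* ℂ, (∀ z ∈ K, σ z = z) ∧ ∀ r : Fin n, 2 ≤ e r →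
      ∃ l' : ℕ, l'.Prime ∧ e r < l' ∧ l' ∣ ln σ x (r + 1) / ln σ x r := by
  classical
  let ι := {r : Fin n // x r ∉ K}
  have h3 : ∀ i : ι, (l i).Prime ∧ e i < l i ∧
      ∃ L : IntermediateField K ℂ, IsGalois K L ∧ Module.finrank K L = l i ∧ x i ∈ L := by
    intro i
    rcases h i with h1 | ⟨h1, h2, -, h3⟩
    · exact absurd h1.2 i.2
    · exact ⟨h1, h2, h3⟩
  have hp : ∀ i : ι, (l i).Prime := fun i => (h3 i).1
  choose L hG hf hx using fun i => (h3 i).2.2
  have hfd : ∀ i, FiniteDimensional K (L i) := by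
    intro i
    apply FiniteDimensional.of_finrank_pos
    rw [hf i]
    exact (hp i).pos
  have hcard : ∀ i, Nat.card (L i ≃ₐ[K] L i) = l i := by
    intro i
    have := hG i
    have := hfd i
    rw [← hf i]
    exact IsGalois.card_aut_eq_finrank K (L i)
  let ρ : ∀ i, (ℂ ≃ₐ[K] ℂ) →* (L i ≃ₐ[K] L i) := fun i =>
    haveI := hG i
    AlgEquiv.restrictNormalHom (L i)
  have hρ : ∀ i (g : ℂ ≃ₐ[K] ℂ) (z : L i), ((ρ i g z : L i) : ℂ) = g z := by
    intro i g z
    have := hG i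
    exact AlgEquiv.restrictNormalHom_apply (L i) g z
  have hρ1 : ∀ i, ∃ g, ρ i g ≠ 1 := by
    intro i
    have : Nontrivial (L i ≃ₐ[K] L i) := by
      have h1 : 1 < Nat.card (L i ≃ₐ[K] L i) := by
        rw [hcard i]
        exact (hp i).one_lt
      have h2 : Finite (L i ≃ₐ[K] L i) := Nat.finite_of_card_ne_zero (by omega)
      exact Finite.one_lt_card_iff_nontrivial.1 h1
    obtain ⟨s, hs⟩ := exists_ne (1 : L i ≃ₐ[K] L i)
    obtain ⟨g, hg⟩ := exists_ext98 K (L i) s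
    refine ⟨g, fun h1 => hs ?_⟩
    ext z
    have h2 := hρ i g z
    rw [h1, hg z] at h2
    exact h2.symm
  obtain ⟨g, hg⟩ := avoid98 (fun i : ι => (L i ≃ₐ[K] L i)) ρ (fun i => l i)
    (fun i j hij => Subtype.ext (hl hij)) hp hcard hρ1 Finset.univ
  have hK : ∀ z ∈ K, g z = z := fun z hz => g.commutes ⟨z, hz⟩
  have hit : ∀ (k : ℕ) (z : ℂ), (g ^ k) z = (⇑g)^[k] z := by
    intro k z
    rw [← AlgEquiv.coe_pow]
  have hper : ∀ (i : ι) (k : ℕ), l i ∣ k → (⇑g)^[k] (x i) = x i := by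
    intro i k hk
    obtain ⟨q, rfl⟩ := hk
    rw [← hit, ← hρ i (g ^ (l i * q)) ⟨x i, hx i⟩, map_pow, pow_mul, ← hcard i, pow_card_eq_one', one_pow]
    rfl
  have hnot : ∀ i : ι, g (x i) ≠ x i := by
    intro i h1
    have := hG i
    have := hfd i
    have : Fact (l i).Prime := ⟨hp i⟩
    have h2 := zpowers_eq_top_of_prime_card (hcard i) (hg i (Finset.mem_univ i))
    have h4 : ∀ s : L i ≃ₐ[K] L i, s ⟨x i, hx i⟩ = ⟨x i, hx i⟩ := by
      intro s
      have h5 : s ∈ Subgroup.zpowers (ρ i g) := by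
        rw [h2]
        exact Subgroup.mem_top s
      have h6 : Subgroup.zpowers (ρ i g) ≤ MulAction.stabilizer (L i ≃ₐ[K] L i) (⟨x i, hx i⟩ : L i) := by
        rw [Subgroup.zpowers_le, MulAction.mem_stabilizer_iff]
        apply Subtype.ext
        exact (hρ i g ⟨x i, hx i⟩).trans h1
      exact MulAction.mem_stabilizer_iff.1 (h6 h5)
    have h5 : (⟨x i, hx i⟩ : L i) ∈ (⊥ : IntermediateField K (L i)) :=
      (IsGalois.mem_bot_iff_fixed _).2 h4
    obtain ⟨a, ha⟩ := IntermediateField.mem_bot.1 h5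
    apply i.2
    have h6 : ((algebraMap K (L i) a : L i) : ℂ) = x i := congrArg Subtype.val ha
    rw [← h6]
    exact a.2
  have hmin : ∀ (i : ι) (k : ℕ), (⇑g)^[k] (x i) = x i → l i ∣ k := by
    intro i k hk
    have h1 : minimalPeriod g (x i) ∣ l i := IsPeriodicPt.minimalPeriod_dvd (hper i _ dvd_rfl)
    have h2 : minimalPeriod g (x i) ∣ k := IsPeriodicPt.minimalPeriod_dvd hk
    rcases (Nat.dvd_prime (hp i)).1 h1 with h4 | h4
    · exact absurd (minimalPeriod_eq_one_iff_isFixedPt.1 h4) (hnot i)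
    · rwa [h4] at h2
  have hx1 : ∀ j, ∃ k, 1 ≤ k ∧ (⇑g)^[k] (x j) = x j := by
    intro j
    by_cases hj : x j ∈ K
    · exact ⟨1, le_rfl, hK _ hj⟩
    · exact ⟨l j, (hp ⟨j, hj⟩).one_le, hper ⟨j, hj⟩ _ dvd_rfl⟩
  refine ⟨g.toRingEquiv, hK, fun r hr => ?_⟩
  have hrK : x r ∉ K := by
    rcases h r with h1 | h1
    · omega
    · exact h1.2.2.1
  refine ⟨l r, (h3 ⟨r, hrK⟩).1, (h3 ⟨r, hrK⟩).2.1, ?_⟩
  show l r ∣ ln (⇑g) x (r + 1) / ln (⇑g) x r
  obtain ⟨hN1, hN⟩ := ln_mem98 (⇑g) x hx1 r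
  obtain ⟨hN1', hN'⟩ := ln_mem98 (⇑g) x hx1 (r + 1)
  have h5 : l r ∣ ln (⇑g) x (r + 1) := hmin ⟨r, hrK⟩ _ (hN' r (Nat.lt_succ_self _))
  have h6 : ln (⇑g) x r ∣ ln (⇑g) x (r + 1) :=
    ln_dvd_of98 (⇑g) x hx1 r _ fun j hj => hN' j (Nat.lt_succ_of_lt hj)
  obtain ⟨q, hq⟩ := h6
  have h7 : ln (⇑g) x r ∣ ∏ i ∈ Finset.univ.filter (fun i : ι => i.1 < r), l i := by
    refine ln_dvd_of98 (⇑g) x hx1 r _ fun j hj => ?_
    by_cases hjK : x j ∈ K
    · exact Function.iterate_fixed (hK _ hjK) _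
    · exact hper ⟨j, hjK⟩ _ (Finset.dvd_prod_of_mem (fun i : ι => l i)
        (Finset.mem_filter.2 ⟨Finset.mem_univ _, hj⟩))
  have h8 : ¬ l r ∣ ln (⇑g) x r := by
    intro h9
    have h10 := h9.trans h7
    have hpr := (h3 ⟨r, hrK⟩).1
    obtain ⟨i, hi, hir⟩ := (Prime.dvd_finsetProd_iff hpr.prime _).1 h10
    have h11 := (Nat.prime_dvd_prime_iff_eq hpr (hp i)).1 hir
    have h12 : r = i := hl h11
    exact absurd (Finset.mem_filter.1 hi).2 (h12 ▸ lt_irrefl _)
  rw [hq, Nat.mul_div_cancel_left _ hN1]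
  rw [hq] at h5
  exact (((h3 ⟨r, hrK⟩).1.dvd_mul).1 h5).resolve_left h8

end

end Pool.Agent.Helper10.TR
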