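import Pool.Agent.Helper10.TR.Defs

/-!
# TR, block D: orbit lengths
-/

set_option autoImplicit false

namespace Pool.Agent.Helper10.TR

open Function

theorem ln_mem98 {X : Type} {n : ℕ} (f : X → X) (x : Fin n → X) (hx : ∀ j, ∃ k, 1 ≤ k ∧ f^[k] (x j) = x j)
    (r : ℕ) : 1 ≤ ln f x r ∧ ∀ j : Fin n, (j : ℕ) < r → f^[ln f x r] (x j) = x j := by
  have hne : {k | 1 ≤ k ∧ ∀ j : Fin n, (j : ℕ) < r → f^[k] (x j) = x j}.Nonempty := by
    choose k hk1 hk using hx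
    refine ⟨∏ j, k j, Finset.one_le_prod' fun j _ => hk1 j, fun j _ => ?_⟩
    have h1 : IsPeriodicPt f (k j) (x j) := hk j
    exact h1.trans_dvd (Finset.dvd_prod_of_mem k (Finset.mem_univ j))
  exact Nat.sInf_mem hne

theorem ln_dvd_of98 {X : Type} {n : ℕ} (f : X → X) (x : Fin n → X) (hx : ∀ j, ∃ k, 1 ≤ k ∧ f^[k] (x j) = x j)
    (r : ℕ) (k : ℕ) (hk : ∀ j : Fin n, (j : ℕ) < r → f^[k] (x j) = x j) : ln f x r ∣ k := by
  obtain ⟨h1, h2⟩ := ln_mem98 f x hx r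
  by_contra hcon
  have h3 : 1 ≤ k % ln f x r := by
    rcases Nat.eq_zero_or_pos (k % ln f x r) with h | h
    · exact absurd (Nat.dvd_of_mod_eq_zero h) hcon
    · exact h
  have h4 : k % ln f x r ∈ {k | 1 ≤ k ∧ ∀ j : Fin n, (j : ℕ) < r → f^[k] (x j) = x j} := by
    refine ⟨h3, fun j hj => ?_⟩
    have h5 : IsPeriodicPt f k (x j) := hk j hj
    have h6 : IsPeriodicPt f (ln f x r) (x j) := h2 j hj
    exact h5.mod h6
  have h5 : ln f x r ≤ k % ln f x r := Nat.sInf_le h4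
  have h6 := Nat.mod_lt k (show ln f x r > 0 from h1)
  omega

/-- **TR-D**: orbit lengths -/
theorem ln_dvd {X Y : Type} {n : ℕ} (f : X → X) (x : Fin n → X) (hx : ∀ j, ∃ k, 1 ≤ k ∧ f^[k] (x j) = x j) (g : Y → Y)
    (y : Fin n → Y) (hy : ∀ j k, g^[k] (y j) = y j ↔ f^[k] (x j) = x j) (r : Fin n) (l : ℕ)
    (hl : l ∣ ln f x (r + 1) / ln f x r) :
    (∀ j, j < r → g^[ln f x r] (y j) = y j) ∧ l ∣ Function.minimalPeriod (g^[ln f x r]) (y r) := by
  obtain ⟨hN1, hN⟩ := ln_mem98 f x hx r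
  obtain ⟨hN1', hN'⟩ := ln_mem98 f x hx (r + 1)
  set N := ln f x r with hNdef
  set N' := ln f x (r + 1) with hN'def
  set M := minimalPeriod (g^[N]) (y r) with hM
  refine ⟨fun j hj => (hy j N).2 (hN j hj), ?_⟩
  have hMpos : 0 < M := by
    obtain ⟨k, hk1, hk⟩ := hx r
    have h1 : IsPeriodicPt g k (y r) := (hy r k).2 hk
    have h2 : IsPeriodicPt (g^[N]) k (y r) := h1.iterate N
    exact h2.minimalPeriod_pos hk1
  have hMper : g^[N * M] (y r) = y r := by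
    rw [iterate_mul]
    exact isPeriodicPt_minimalPeriod _ _
  have h1 : N' ∣ N * M := by
    refine ln_dvd_of98 f x hx (r + 1) (N * M) fun j hj => ?_
    rcases Nat.lt_succ_iff_lt_or_eq.1 hj with h | h
    · have h2 : IsPeriodicPt f N (x j) := hN j h
      exact h2.trans_dvd (Dvd.intro _ rfl)
    · have h2 : j = r := Fin.ext h
      rw [h2]
      exact (hy r _).1 hMper
  have h2 : N ∣ N' := ln_dvd_of98 f x hx r N' fun j hj => hN' j (Nat.lt_succ_of_lt hj)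
  obtain ⟨q, hq⟩ := h2
  have h3 : M ∣ q := by
    have h4 : g^[N * q] (y r) = y r := by
      rw [← hq]
      exact (hy r _).2 (hN' r (Nat.lt_succ_self _))
    rw [iterate_mul] at h4
    exact IsPeriodicPt.minimalPeriod_dvd h4
  have h4 : q ∣ M := by
    rw [hq] at h1
    exact Nat.dvd_of_mul_dvd_mul_left hN1 h1
  have h5 : q = M := Nat.dvd_antisymm h4 h3
  rw [hq, Nat.mul_div_cancel_left _ hN1, h5] at hl
  exact hl

end Pool.Agent.Helper10.TR
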