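import Pool.Agent.Helper98.TR.D

/-!
# TR, block H: orbit lengths, equalities
-/

set_option autoImplicit false

namespace Pool.Agent.Helper10.TR

open Function

/-- **TR-H**: orbit lengths, equalities -/
theorem ln_eq {X Y : Type} {n : ℕ} (f : X → X) (x : Fin n → X) (hx : ∀ j, ∃ k, 1 ≤ k ∧ f^[k] (x j) = x j) (g : Y → Y)
    (y : Fin n → Y) (hy : ∀ j k, g^[k] (y j) = y j ↔ f^[k] (x j) = x j) (r : Fin n) :
    1 ≤ ln f x r ∧ (∀ j, j < r → g^[ln f x r] (y j) = y j) ∧ 1 ≤ ln f x (r + 1) / ln f x r ∧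
      Function.minimalPeriod (g^[ln f x r]) (y r) = ln f x (r + 1) / ln f x r := by
  obtain ⟨hN1, hN⟩ := ln_mem98 f x hx r
  obtain ⟨hN1', hN'⟩ := ln_mem98 f x hx (r + 1)
  set N := ln f x r with hNdef
  set N' := ln f x (r + 1) with hN'def
  set M := minimalPeriod (g^[N]) (y r) with hM
  have hMpos : 0 < M := by
    obtain ⟨k, hk1, hk⟩ := hx r
    have h1 : IsPeriodicPt g k (y r) := (hy r k).2 hk
    have h2 : IsPeriodicPt (g^[N]) k (y r) := h1.iterate N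
    exact h2.minimalPeriod_pos hk1
  have hMper : g^[N * M] (y r) = y r := by
    rw [iterate_mul]
    exact isPeriodicPt_minimalPeriod _ _
  have h1 : N' ∣ N * M := by
    refine ln_dvd_of98 f x hx (r + 1) (N * M) fun j hj => ?_
    rcases Nat.lt_succ_iff_lt_or_eq.1 hj with h | h
    · have h2 : IsPeriodicPt f N (x j) := hN j h
      exact h2.trans_dvd (Dvd.intro _ rfl)
    · have h2 : j = r := Fin.ext h
      rw [h2]
      exact (hy r _).1 hMper
  have h2 : N ∣ N' := ln_dvd_of98 f x hx r N' fun j hj => hN' j (Nat.lt_succ_of_lt hj)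
  obtain ⟨q, hq⟩ := h2
  have h3 : M ∣ q := by
    have h4 : g^[N * q] (y r) = y r := by
      rw [← hq]
      exact (hy r _).2 (hN' r (Nat.lt_succ_self _))
    rw [iterate_mul] at h4
    exact IsPeriodicPt.minimalPeriod_dvd h4
  have h4 : q ∣ M := by
    rw [hq] at h1
    exact Nat.dvd_of_mul_dvd_mul_left hN1 h1
  have h5 : q = M := Nat.dvd_antisymm h4 h3
  have h6 : N' / N = M := by rw [hq, Nat.mul_div_cancel_left _ hN1, h5]
  refine ⟨hN1, fun j hj => (hy j N).2 (hN j hj), ?_, h6.symm⟩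
  rw [h6]
  exact hMpos

theorem len_eq {X Y : Type} (f : X → X) (g : Y → Y) (N : ℕ) (x : X) (y : Y) (hx : ∃ k, 1 ≤ k ∧ f^[k] x = x)
    (hy : ∀ k, g^[k] y = y ↔ f^[k] x = x) :
    Function.minimalPeriod (g^[N]) y = sInf {k | 1 ≤ k ∧ f^[N * k] x = x} := by
  have h1 : ∀ k, (g^[N])^[k] y = y ↔ f^[N * k] x = x := by
    intro k
    rw [← iterate_mul]
    exact hy _
  obtain ⟨k, hk1, hk⟩ := hx
  have h2 : IsPeriodicPt g k y := (hy k).2 hk
  have h3 : IsPeriodicPt (g^[N]) k y := h2.iterate N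
  have h4 : 0 < minimalPeriod (g^[N]) y := h3.minimalPeriod_pos hk1
  have h5 : minimalPeriod (g^[N]) y ∈ {k | 1 ≤ k ∧ f^[N * k] x = x} :=
    ⟨h4, (h1 _).1 (isPeriodicPt_minimalPeriod _ _)⟩
  refine le_antisymm ?_ (Nat.sInf_le h5)
  obtain ⟨h6, h7⟩ := Nat.sInf_mem ⟨_, h5⟩
  exact IsPeriodicPt.minimalPeriod_le h6 ((h1 _).2 h7)

end Pool.Agent.Helper10.TR
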