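import Pool.Agent.Helper54.MT.Wrap

/-!
Square zero elements of irreducible Lie algebras of infinitesimal symplectic operators which are
not simple (block TR-D): the rank and the dimension form an exceptional pair.
-/

open Module

attribute [local instance 100] LieRing.ofAssociativeRing

namespace TR

/-- The exceptional pairs (weak form). -/
def Exc (r D : ℕ) : Prop :=
  4 ∣ D ∧ 8 ≤ D ∧ 2 * r ≤ D ∧ 2 ∣ r ∧ (4 ∣ r ∨ ¬ Nat.Coprime (r / 2) (D / 4) ∨ (r = 6 ∧ D = 20))

namespace NS

open Pool.Agent.Helper54.MT MTP

variable {K : Type*} [Field K] {V : Type*} [AddCommGroup V] [Module K V] [FiniteDimensional K V]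
  {ω : LinearMap.BilinForm K V} {I J : Submodule K (Module.End K V)}

/-- The isotypic structure. -/
theorem iso [Nontrivial V] (h : Two I J) :
    ∃ S : Submodule (Algebra.adjoin K (I : Set (Module.End K V))) V,
      IsSimpleModule (Algebra.adjoin K (I : Set (Module.End K V))) S ∧
      ∀ (M : Submodule K V) (hM : ∀ a ∈ I, ∀ w ∈ M, a w ∈ M), ∃ m : ℕ,
        Nonempty (subOf M hM ≃ₗ[Algebra.adjoin K (I : Set (Module.End K V))] (Fin m → S)) := by
  classical
  set A := Algebra.adjoin K (I : Set (Module.End K V)) with hA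
  have : IsArtinian A V := isArtinian_of_tower K inferInstance
  have hfin : Module.Finite A V := Module.Finite.of_restrictScalars_finite K A V
  obtain ⟨S, hS⟩ := IsAtomic.exists_atom (Submodule A V)
  rw [← isSimpleModule_iff_isAtom] at hS
  have hC : isotypicComponent A V S = ⊤ := by
    have h1 := h.irr ((isotypicComponent A V S).restrictScalars K)
      (by
        intro a ha w hw
        exact (isotypicComponent A V S).smul_mem (⟨a, Algebra.subset_adjoin ha⟩ : A) hw)
      (by
        intro b hb w hw
        let f : V →ₗ[A] V :=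
          { toFun := b
            map_add' := map_add b
            map_smul' := by
              intro x v
              have := h.comm_adjoin x.2 hb
              change b ((x : Module.End K V) v) = (x : Module.End K V) (b v)
              rw [← Module.End.mul_apply, ← Module.End.mul_apply, this] }
        exact LinearMap.le_comap_isotypicComponent S f hw)
    rcases h1 with h1 | h1
    · exfalso
      have h2 := bot_lt_isotypicComponent S
      rw [bot_lt_iff_ne_bot] at h2
      apply h2
      rw [eq_bot_iff]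
      intro w hw
      have : w ∈ (isotypicComponent A V S).restrictScalars K := hw
      rw [h1] at this
      exact this
    · rw [eq_top_iff]
      intro w _
      have : w ∈ (isotypicComponent A V S).restrictScalars K := by rw [h1]; trivial
      exact this
  have hty : IsIsotypicOfType A V S := IsIsotypicOfType.of_isotypicComponent_eq_top hC
  have hss : IsSemisimpleModule A V := by
    have : IsSemisimpleModule A (isotypicComponent A V S) := inferInstance
    rw [hC] at this
    exact IsSemisimpleModule.congr (M := (⊤ : Submodule A V)) (N := V)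
      (Submodule.topEquiv (R := A) (M := V)).symm
  refine ⟨S, hS, fun M hM => ?_⟩
  have hty' : IsIsotypicOfType A (subOf M hM) S :=
    hty.of_injective (subOf M hM).subtype (Submodule.injective_subtype _)
  have hfinM : Module.Finite A (subOf M hM) := inferInstance
  exact hty'.linearEquiv_fun

/-- A summary of the isotypic structure. -/
theorem exists_dim [Nontrivial V] (h : Two I J) : ∃ (d : ℕ) (S : Submodule K V), 0 < d ∧
    finrank K S = d ∧ S ≠ ⊥ ∧ (∀ a ∈ I, ∀ w ∈ S, a w ∈ S) ∧
    (∀ M : Submodule K V, (∀ a ∈ I, ∀ w ∈ M, a w ∈ M) → d ∣ finrank K M) ∧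
    (d = 2 → ∀ f ∈ I, f * f = 0 → f ≠ 0 → ∀ M : Submodule K V, (∀ a ∈ I, ∀ w ∈ M, a w ∈ M) →
      2 * finrank K (M.map f) = finrank K M) := by
  classical
  obtain ⟨S, hS, hiso⟩ := iso h
  set S0 : Submodule K V := S.restrictScalars K with hS0
  have hfS : FiniteDimensional K S := FiniteDimensional.finiteDimensional_submodule S0
  have hSne : S0 ≠ ⊥ := by
    intro h0
    have hbot : S = ⊥ := by
      rw [eq_bot_iff]
      intro w hw
      have hw' : w ∈ S0 := hw
      rw [h0] at hw'
      exact hw'
    have hnt := hS.nontrivial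
    obtain ⟨⟨x, hxS⟩, hx⟩ := exists_ne (0 : S)
    apply hx
    have h1 : x ∈ (⊥ : Submodule (Algebra.adjoin K (I : Set (Module.End K V))) V) := hbot ▸ hxS
    exact Subtype.ext ((Submodule.mem_bot _).mp h1)
  have hSst : ∀ a ∈ I, ∀ w ∈ S0, a w ∈ S0 := by
    intro a ha w hw
    exact S.smul_mem (⟨a, Algebra.subset_adjoin ha⟩ :
      Algebra.adjoin K (I : Set (Module.End K V))) hw
  have hdS : finrank K S0 = finrank K S := rfl
  have hpos : 0 < finrank K S0 := by
    rw [Nat.pos_iff_ne_zero]
    intro h0
    exact hSne (Submodule.finrank_eq_zero.mp h0)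
  have hfinM : ∀ (M : Submodule K V) (hM : ∀ a ∈ I, ∀ w ∈ M, a w ∈ M),
      finrank K (subOf M hM) = finrank K M := by
    intro M hM
    let e : M ≃ₗ[K] (subOf M hM) :=
      { toFun := fun v => ⟨v.1, v.2⟩
        invFun := fun v => ⟨v.1, v.2⟩
        map_add' := fun _ _ => rfl
        map_smul' := fun _ _ => rfl
        left_inv := fun _ => rfl
        right_inv := fun _ => rfl }
    exact e.finrank_eq.symm
  refine ⟨finrank K S0, S0, hpos, rfl, hSne, hSst, ?_, ?_⟩
  · intro M hM
    obtain ⟨m, ⟨e⟩⟩ := hiso M hM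
    have h1 : finrank K M = m * finrank K S0 := by
      rw [← hfinM M hM, (e.restrictScalars K).finrank_eq]
      have hfr : Module.Free K S := Module.Free.of_divisionRing K S
      rw [Module.finrank_pi_fintype]
      simp [hdS]
    rw [h1]
    exact dvd_mul_left _ _
  · intro hd2 f hf hff hf0 M hM
    -- `f` does not vanish on `S`
    have hfne : ∃ v ∈ S0, f v ≠ 0 := by
      by_contra hcon
      push Not at hcon
      apply hf0
      have h1 := h.eq_top (M := S0) (R := LinearMap.ker f) hSne hSst
        (by
          intro b hb w hw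
          rw [LinearMap.mem_ker] at hw ⊢
          rw [← Module.End.mul_apply, h.comm f hf b hb, Module.End.mul_apply, hw, map_zero])
        (fun v hv => hcon v hv)
      exact LinearMap.ker_eq_top.mp h1
    -- on `S` the kernel of `f` is its image
    have hkS : ∀ v ∈ S0, f v = 0 → ∃ w ∈ S0, f w = v := by
      set g : Module.End K S0 := f.restrict (hSst f hf) with hg
      have hgg : LinearMap.range g ≤ LinearMap.ker g := by
        rintro _ ⟨v, rfl⟩
        rw [LinearMap.mem_ker]
        apply Subtype.ext
        have : f (f (v : V)) = 0 := by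
          rw [← Module.End.mul_apply, hff]; rfl
        exact this
      have hg0 : LinearMap.range g ≠ ⊥ := by
        intro h0
        obtain ⟨v, hv, hfv⟩ := hfne
        have : g ⟨v, hv⟩ ∈ LinearMap.range g := ⟨_, rfl⟩
        rw [h0, Submodule.mem_bot] at this
        exact hfv (congrArg Subtype.val this)
      have hr1 : 0 < finrank K (LinearMap.range g) := by
        rw [Nat.pos_iff_ne_zero]
        intro h0
        exact hg0 (Submodule.finrank_eq_zero.mp h0)
      have hrn := LinearMap.finrank_range_add_finrank_ker g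
      have hle := Submodule.finrank_mono hgg
      have heq : LinearMap.range g = LinearMap.ker g := by
        apply Submodule.eq_of_le_of_finrank_le hgg
        omega
      intro v hv hfv
      have hmem : (⟨v, hv⟩ : S0) ∈ LinearMap.ker g := by
        rw [LinearMap.mem_ker]
        exact Subtype.ext hfv
      rw [← heq] at hmem
      obtain ⟨w, hw⟩ := hmem
      exact ⟨w, w.2, congrArg Subtype.val hw⟩
    -- the same on `M`
    have hkM : ∀ v ∈ M, f v = 0 → ∃ w ∈ M, f w = v := by
      obtain ⟨m, ⟨e⟩⟩ := hiso M hM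
      intro v hv hfv
      let f' : Algebra.adjoin K (I : Set (Module.End K V)) := ⟨f, Algebra.subset_adjoin hf⟩
      let v' : subOf M hM := ⟨v, hv⟩
      have h1 : f' • v' = 0 := Subtype.ext hfv
      have h2 : f' • e v' = 0 := by rw [← map_smul, h1, map_zero]
      have h3 : ∀ i, ∃ w : S, f' • w = e v' i := by
        intro i
        have h4 : f' • (e v' i) = 0 := congrFun h2 i
        have h5 : f ((e v' i : S) : V) = 0 := congrArg Subtype.val h4
        obtain ⟨w, hw, hw'⟩ := hkS _ (e v' i).2 h5
        exact ⟨⟨w, hw⟩, Subtype.ext hw'⟩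
      choose y hy using h3
      have h4 : f' • y = e v' := funext hy
      have h5 : f' • e.symm y = v' := by
        rw [← map_smul, h4, LinearEquiv.symm_apply_apply]
      exact ⟨(e.symm y : V), (e.symm y).2, congrArg Subtype.val h5⟩
    set g : Module.End K M := f.restrict (hM f hf) with hg
    have heq : LinearMap.range g = LinearMap.ker g := by
      apply le_antisymm
      · rintro _ ⟨v, rfl⟩
        rw [LinearMap.mem_ker]
        apply Subtype.ext
        have : f (f (v : V)) = 0 := by
          rw [← Module.End.mul_apply, hff]; rfl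
        exact this
      · intro v hv
        rw [LinearMap.mem_ker] at hv
        obtain ⟨w, hw, hw'⟩ := hkM v v.2 (congrArg Subtype.val hv)
        exact ⟨⟨w, hw⟩, Subtype.ext hw'⟩
    have hrn := LinearMap.finrank_range_add_finrank_ker g
    rw [← heq] at hrn
    have hmap : finrank K (M.map f) = finrank K (LinearMap.range g) := by
      have : M.map f = (LinearMap.range g).map M.subtype := by
        ext x
        constructor
        · rintro ⟨v, hv, rfl⟩
          exact ⟨g ⟨v, hv⟩, ⟨_, rfl⟩, rfl⟩
        · rintro ⟨_, ⟨v, rfl⟩, rfl⟩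
          exact ⟨v, v.2, rfl⟩
      rw [this]
      exact LinearEquiv.finrank_eq
        (Submodule.equivMapOfInjective _ (Submodule.injective_subtype M) _).symm
    rw [hmap]
    omega

/-- An operator `z` for which `ω u (z v)` is alternating has even rank. -/
lemma even_rk [CharZero K] (hω : ω.Nondegenerate) {z : Module.End K V}
    (hz : ∀ u v, ω u (z v) = - ω v (z u)) : Even (rk z) := by
  classical
  obtain ⟨W, hW⟩ := Submodule.exists_isCompl (LinearMap.ker z)
  have hdim : rk z = finrank K W := by
    have h1 := LinearMap.finrank_range_add_finrank_ker z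
    have h2 := Submodule.finrank_add_eq_of_isCompl hW
    unfold rk
    omega
  rw [hdim]
  set n := finrank K W with hn
  let b : Basis (Fin n) K W := Module.finBasis K W
  let A : Matrix (Fin n) (Fin n) K := Matrix.of fun i j => ω (b i : V) (z (b j : V))
  have hA : A.transpose = -A := by
    ext i j
    change ω (b j : V) (z (b i : V)) = -ω (b i : V) (z (b j : V))
    exact hz _ _
  have hdet : A.det ≠ 0 := by
    intro h0
    obtain ⟨c, hc0, hc⟩ := Matrix.exists_mulVec_eq_zero_iff.mpr h0
    apply hc0
    set w : W := ∑ j, c j • b j with hw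
    have h1 : ∀ i, ω (b i : V) (z (w : V)) = 0 := by
      intro i
      have h2 := congrFun hc i
      simp only [Matrix.mulVec, dotProduct, Pi.zero_apply] at h2
      rw [← h2, hw]
      simp only [A, Matrix.of_apply, Submodule.coe_sum, Submodule.coe_smul, map_sum, map_smul,
        smul_eq_mul]
      exact Finset.sum_congr rfl (fun j _ => mul_comm _ _)
    have h2 : ∀ u ∈ W, ω u (z (w : V)) = 0 := by
      intro u hu
      have h3 := b.sum_repr ⟨u, hu⟩
      have h4 : u = ∑ i, b.repr ⟨u, hu⟩ i • (b i : V) := by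
        have := congrArg Subtype.val h3
        simp only [Submodule.coe_sum, Submodule.coe_smul] at this
        exact this.symm
      rw [h4, map_sum, LinearMap.sum_apply]
      apply Finset.sum_eq_zero
      intro i _
      rw [map_smul, LinearMap.smul_apply, h1, smul_zero]
    have h3 : z (w : V) = 0 := by
      apply hω.2
      intro v
      have hv : v ∈ LinearMap.ker z ⊔ W := by rw [hW.sup_eq_top]; trivial
      obtain ⟨k, hk, u, hu, rfl⟩ := Submodule.mem_sup.mp hv
      rw [map_add, LinearMap.add_apply, h2 u hu, add_zero, hz, LinearMap.mem_ker.mp hk, map_zero,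
        neg_zero]
    have h4 : (w : V) = 0 := by
      have : (w : V) ∈ LinearMap.ker z ⊓ W := ⟨LinearMap.mem_ker.mpr h3, w.2⟩
      rw [hW.inf_eq_bot] at this
      exact (Submodule.mem_bot K).mp this
    have h5 : w = 0 := Subtype.ext h4
    have h6 := b.linearIndependent
    rw [Fintype.linearIndependent_iff] at h6
    funext i
    exact h6 c h5 i
  have h1 : A.det = (-1) ^ n * A.det := by
    conv_lhs => rw [← Matrix.det_transpose, hA, Matrix.det_neg, Fintype.card_fin]
  by_contra hodd
  rw [Nat.not_even_iff_odd] at hodd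
  rw [hodd.neg_one_pow, neg_one_mul] at h1
  exact hdet (self_eq_neg.mp h1)

omit [FiniteDimensional K V] in
/-- The product of two commuting skew operators. -/
lemma comm_mul_alt (halt : ω.IsAlt) {x y : Module.End K V} (hx : IsSk ω x) (hy : IsSk ω y)
    (hc : x * y = y * x) (u v : V) : ω u ((x * y) v) = - ω v ((x * y) u) := by
  have h1 : ω u ((x * y) v) = ω ((x * y) u) v := by
    rw [hc]
    nth_rewrite 2 [← hc]
    rw [Module.End.mul_apply, Module.End.mul_apply, hx, hy, neg_neg]
  rw [h1]
  exact (halt.neg_eq v ((x * y) u)).symm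

/-- A nonzero square zero element in the part of an involution. -/
lemma exists_sq [IsAlgClosed K] [CharZero K] [Nontrivial V] (h : Two I J) (hω : ω.Nondegenerate)
    (hbr : ∀ x ∈ I, ∀ y ∈ I, x * y - y * x ∈ I) {s : Module.End K V} (hs : s ∈ I)
    (hss : s * s = 1) (hsk : IsSk ω s) : ∃ f ∈ I, f ≠ 0 ∧ f * f = 0 := by
  by_contra hcon
  push Not at hcon
  have hpq : ∀ x ∈ I, pp s * x * qq s = 0 := by
    intro x hx
    by_contra h0
    refine hcon _ (comps_mem hss (fun y hy => hbr s hs y hy) hx).1 h0 ?_
    calc pp s * x * qq s * (pp s * x * qq s) = pp s * x * (qq s * pp s) * x * qq s := by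
          noncomm_ring
      _ = 0 := by rw [qq_mul_pp hss]; simp
  have hqp : ∀ x ∈ I, qq s * x * pp s = 0 := by
    intro x hx
    by_contra h0
    refine hcon _ (comps_mem hss (fun y hy => hbr s hs y hy) hx).2.1 h0 ?_
    calc qq s * x * pp s * (qq s * x * pp s) = qq s * x * (pp s * qq s) * x * pp s := by
          noncomm_ring
      _ = 0 := by rw [pp_mul_qq hss]; simp
  have hcomm : ∀ x ∈ I, s * x = x * s := by
    intro x hx
    have e : s * x - x * s = 2 • (pp s * x * qq s) - 2 • (qq s * x * pp s) := by
      have e1 : s * x - x * s = (pp s - qq s) * x * (pp s + qq s)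
          - (pp s + qq s) * x * (pp s - qq s) := by
        rw [pp_sub_qq, pp_add_qq]; simp
      rw [e1]; noncomm_ring
    rw [hpq x hx, hqp x hx, smul_zero, sub_zero] at e
    exact sub_eq_zero.mp e
  have hh := half hω hss hsk
  have hpos : 0 < finrank K V := finrank_pos
  rcases h.irr (s.eigenspace 1) (fun a ha => eigenspace_stable (hcomm a ha) 1)
    (fun b hb => eigenspace_stable (h.comm s hs b hb) 1) with h1 | h1
  · rw [h1, finrank_bot] at hh
    omega
  · rw [h1, finrank_top] at hh
    omega

/-- The trace of an involution on a stable subspace. -/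
lemma even_dim [IsAlgClosed K] [CharZero K] [Nontrivial V] (h : Two I J) (hω : ω.Nondegenerate)
    {s : Module.End K V} (hs : s ∈ I) (hss : s * s = 1) (hsk : IsSk ω s) {M : Submodule K V}
    (hM : ∀ a ∈ I, ∀ w ∈ M, a w ∈ M) : Even (finrank K M) := by
  classical
  have h1 := h.trace_mul (Algebra.subset_adjoin hs) hM (hM s hs)
  rw [trace_eq_zero_of_sk hω hsk, mul_zero] at h1
  have h2 : LinearMap.trace K M (s.restrict (hM s hs)) = 0 :=
    (mul_eq_zero.mp h1).resolve_left Two.nonzero
  set t : Module.End K M := s.restrict (hM s hs) with ht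
  have htt : t * t = 1 := by
    ext v
    have : s (s (v : V)) = v := by rw [← Module.End.mul_apply, hss]; rfl
    exact this
  have h3 := trace_aeval (semisimple_of_sq htt).iSup_eigenspace_eq_top {1, -1}
    (fun μ hμ => by
      have := sq_eigen htt hμ
      rw [Finset.mem_insert, Finset.mem_singleton]
      exact mul_self_eq_one_iff.mp this)
  have hne : (1 : K) ≠ -1 := by
    intro h
    have : (2 : K) = 0 := by linear_combination h
    exact two_ne_zero this
  have h4 := h3 (1 : Polynomial K)
  have h5 := h3 (Polynomial.X : Polynomial K)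
  rw [map_one, LinearMap.trace_one, Finset.sum_pair hne] at h4
  rw [Polynomial.aeval_X, h2, Finset.sum_pair hne] at h5
  simp only [Polynomial.eval_one, one_mul] at h4
  simp only [Polynomial.eval_X, one_mul, neg_mul] at h5
  refine ⟨finrank K (t.eigenspace 1), ?_⟩
  have h6 : ((finrank K M : ℕ) : K)
      = ((finrank K (t.eigenspace 1) + finrank K (t.eigenspace 1) : ℕ) : K) := by
    rw [h4]; push_cast
    linear_combination h5
  exact Nat.cast_injective h6

/-- The square zero elements lie in one of the two parts. -/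
lemma split_sq [IsAlgClosed K] [CharZero K] [Nontrivial V] (h : Two I J) (hω : ω.Nondegenerate)
    (hI : ∀ a ∈ I, IsSk ω a) {x y : Module.End K V} (hx : x ∈ I)
    (hy : y ∈ J) (hN : (x + y) * (x + y) = 0) : x = 0 ∨ y = 0 := by
  have c : x * y = y * x := h.comm x hx y hy
  have key : ∀ a b : K, x.eigenspace a ≠ ⊥ → y.eigenspace b ≠ ⊥ → a + b = 0 := by
    intro a b ha hb
    obtain ⟨v, hv, hv0⟩ := Submodule.exists_mem_ne_zero_of_ne_bot (h.joint hx hy ha hb)
    rw [Submodule.mem_inf, Module.End.mem_eigenspace_iff, Module.End.mem_eigenspace_iff] at hv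
    have h1 : (x + y) v = (a + b) • v := by rw [LinearMap.add_apply, hv.1, hv.2, add_smul]
    have h2 : ((x + y) * (x + y)) v = ((a + b) * (a + b)) • v := by
      rw [Module.End.mul_apply, h1, map_smul, h1, smul_smul]
    rw [hN, LinearMap.zero_apply] at h2
    exact mul_self_eq_zero.mp ((smul_eq_zero.mp h2.symm).resolve_right hv0)
  obtain ⟨a0, ha0⟩ := Module.End.exists_eigenvalue x
  obtain ⟨b0, hb0⟩ := Module.End.exists_eigenvalue y
  have ha : x.eigenspace a0 ≠ ⊥ := ha0
  have hb : y.eigenspace b0 ≠ ⊥ := hb0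
  have k1 := key _ _ ha hb
  have k2 := key _ _ (eigen_neg hω (hI x hx) ha) hb
  have hb00 : b0 = 0 := by
    have : (2 : K) * b0 = 0 := by linear_combination k1 + k2
    exact (mul_eq_zero.mp this).resolve_left two_ne_zero
  have ha00 : a0 = 0 := by rw [hb00, add_zero] at k1; exact k1
  rw [hb00, Module.End.eigenspace_zero] at hb
  rw [ha00, Module.End.eigenspace_zero] at ha
  have hNN : x * x + 2 • (x * y) + y * y = 0 := by
    rw [← hN]
    have : (x + y) * (x + y) = x * x + x * y + y * x + y * y := by noncomm_ring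
    rw [this, ← c]
    abel
  have kst : ∀ (p q : Module.End K V), p * q = q * p → ∀ w ∈ LinearMap.ker p,
      q w ∈ LinearMap.ker p := by
    intro p q hpq w hw
    rw [LinearMap.mem_ker] at hw ⊢
    rw [← Module.End.mul_apply, hpq, Module.End.mul_apply, hw, map_zero]
  -- the squares vanish
  have hxx : x * x = 0 := by
    have h1 := h.eq_top (M := LinearMap.ker y) (R := LinearMap.ker (x * x)) hb
      (fun a ha => kst _ _ (h.comm a ha y hy).symm)
      (fun b hb => kst _ _ (by rw [mul_assoc, h.comm x hx b hb, ← mul_assoc, h.comm x hx b hb,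
        mul_assoc]))
      (by
        intro v hv
        rw [LinearMap.mem_ker] at hv ⊢
        have h2 := LinearMap.congr_fun hNN v
        simpa [Module.End.mul_apply, hv] using h2)
    exact LinearMap.ker_eq_top.mp h1
  have hyy : y * y = 0 := by
    have h1 := h.symm.eq_top (M := LinearMap.ker x) (R := LinearMap.ker (y * y)) ha
      (fun b hb => kst _ _ (h.comm x hx b hb))
      (fun a ha => kst _ _ (by rw [mul_assoc, ← h.comm a ha y hy, ← mul_assoc,
        ← h.comm a ha y hy, mul_assoc]))
      (by
        intro v hv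
        rw [LinearMap.mem_ker] at hv ⊢
        have h2 := LinearMap.congr_fun hNN v
        have h3 : x (y v) = 0 := by
          rw [← Module.End.mul_apply, c, Module.End.mul_apply, hv, map_zero]
        simpa [Module.End.mul_apply, hv, h3] using h2)
    exact LinearMap.ker_eq_top.mp h1
  have hxy : x * y = 0 := by
    rw [hxx, hyy, zero_add, add_zero] at hNN
    have : (2 : K) • (x * y) = 0 := by rw [← hNN]; module
    exact (smul_eq_zero.mp this).resolve_left two_ne_zero
  by_cases hy0 : y = 0
  · exact Or.inr hy0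
  left
  have h1 := h.eq_top (M := LinearMap.range y) (R := LinearMap.ker x)
    (by
      intro h0
      exact hy0 (LinearMap.range_eq_bot.mp h0))
    (by
      rintro a ha _ ⟨v, rfl⟩
      refine ⟨a v, ?_⟩
      rw [← Module.End.mul_apply, ← h.comm a ha y hy]
      rfl)
    (fun b hb => kst _ _ (h.comm x hx b hb))
    (by
      rintro _ ⟨v, rfl⟩
      rw [LinearMap.mem_ker, ← Module.End.mul_apply, hxy]
      rfl)
  exact LinearMap.ker_eq_top.mp h1

/-- **Two commuting parts**: the square zero elements of the first part. -/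
theorem two_exc [IsAlgClosed K] [CharZero K] [Nontrivial V] (h : Two I J) (hω : ω.Nondegenerate)
    (halt : ω.IsAlt) (hI : ∀ a ∈ I, IsSk ω a) (hJ : ∀ a ∈ J, IsSk ω a)
    (brI : ∀ x ∈ I, ∀ y ∈ I, x * y - y * x ∈ I) (brJ : ∀ x ∈ J, ∀ y ∈ J, x * y - y * x ∈ J)
    {s1 s2 N : Module.End K V} (hs1 : s1 ∈ I) (hss1 : s1 * s1 = 1) (hs2 : s2 ∈ J)
    (hss2 : s2 * s2 = 1) (hN : N ∈ I) (hNN : N * N = 0) : Exc (rk N) (finrank K V) := by
  obtain ⟨d, S, hd, hdS, hS, hSst, hdvd, hd2⟩ := exists_dim h.symm
  have hdeven : Even d := by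
    rw [← hdS]
    exact even_dim h.symm hω hs2 hss2 (hJ s2 hs2) hSst
  have hhalf := half hω hss1 (hI s1 hs1)
  have h2d : 2 * d ∣ finrank K V := by
    rw [← hhalf]
    apply mul_dvd_mul_left
    exact hdvd _ (fun b hb => eigenspace_stable (h.comm s1 hs1 b hb) 1)
  have hrange : ∀ x ∈ I, ∀ b ∈ J, ∀ w ∈ LinearMap.range x, b w ∈ LinearMap.range x := by
    rintro x hx b hb _ ⟨v, rfl⟩
    refine ⟨b v, ?_⟩
    rw [← Module.End.mul_apply, h.comm x hx b hb]
    rfl
  have hrk : ∀ x ∈ I, d ∣ rk x := fun x hx => hdvd _ (hrange x hx)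
  have hle : ∀ x : Module.End K V, x * x = 0 → 2 * rk x ≤ finrank K V := by
    intro x hxx
    have h1 := LinearMap.finrank_range_add_finrank_ker x
    have h2 : LinearMap.range x ≤ LinearMap.ker x := by
      rintro _ ⟨v, rfl⟩
      rw [LinearMap.mem_ker, ← Module.End.mul_apply, hxx]
      rfl
    have h3 := Submodule.finrank_mono h2
    unfold rk
    omega
  obtain ⟨f, hf, hf0, hff⟩ := exists_sq h.symm hω brJ hs2 hss2 (hJ s2 hs2)
  obtain ⟨e, he, he0, hee⟩ := exists_sq h hω brI hs1 hss1 (hI s1 hs1)
  have hfour : d = 2 → ∀ x ∈ I, 4 ∣ rk x := by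
    intro hd' x hx
    have h1 := hd2 hd' f hf hff hf0 (LinearMap.range x) (hrange x hx)
    have h2 : (LinearMap.range x).map f = LinearMap.range (f * x) := by
      rw [← LinearMap.range_comp]
      rfl
    rw [h2, ← h.comm x hx f hf] at h1
    have h3 := even_rk hω (comm_mul_alt halt (hI x hx) (hJ f hf) (h.comm x hx f hf))
    obtain ⟨k, hk⟩ := h3
    unfold rk at hk ⊢
    rw [hk] at h1
    exact ⟨k, by omega⟩
  have hpos : 0 < finrank K V := finrank_pos
  obtain ⟨c, hc⟩ := hdeven
  obtain ⟨l, hl⟩ := h2d
  have hdN := hrk N hN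
  have h4 : 4 ∣ finrank K V := ⟨c * l, by rw [hl, hc]; ring⟩
  refine ⟨h4, ?_, hle N hNN, ?_, ?_⟩
  · by_contra hlt
    push Not at hlt
    have h44 : finrank K V = 4 := by omega
    have hd' : d = 2 := by
      rw [h44] at hl
      have h5 : c * l = 1 := by
        have : 4 * (c * l) = 2 * d * l := by rw [hc]; ring
        omega
      have h6 : c = 1 := Nat.eq_one_of_mul_eq_one_right h5
      omega
    have h5 := hfour hd' e he
    have h6 := hle e hee
    have h7 : 0 < rk e := rk_pos.mpr he0
    omega
  · exact dvd_trans ⟨c, by rw [hc]; ring⟩ hdN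
  · by_cases h40 : 4 ∣ rk N
    · exact Or.inl h40
    right; left
    obtain ⟨k, hk⟩ := hdN
    have hc1 : c ≠ 1 := by
      intro hc1
      exact h40 (hfour (by omega) N hN)
    have hcpos : 0 < c := by omega
    intro hcop
    have e1 : rk N / 2 = c * k := by
      rw [hk, hc]
      have : (c + c) * k = 2 * (c * k) := by ring
      rw [this]; omega
    have e2 : finrank K V / 4 = c * l := by
      rw [hl, hc]
      have : 2 * (c + c) * l = 4 * (c * l) := by ring
      rw [this]; omega
    rw [e1, e2] at hcop
    have h5 := Nat.Coprime.coprime_mul_right hcop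
    have h6 := Nat.Coprime.coprime_mul_right_right h5
    exact hc1 ((Nat.coprime_self c).mp h6)

end NS

open NS Pool.Agent.Helper54.MT MTP

variable {K : Type*} [Field K] [CharZero K] [IsAlgClosed K] {V : Type*} [AddCommGroup V]
  [Module K V] [FiniteDimensional K V] {ω : LinearMap.BilinForm K V}

/-- D: two factors -/
theorem nonsimple_exc [Nontrivial V] {L : LieSubalgebra K (Module.End K V)}
    {S : Set (Module.End K V)}
    (hC : Ctx ω L.toSubmodule S) (halt : ω.IsAlt) (hns : ¬ LieAlgebra.IsSimple K L)
    {N : Module.End K V} (hN : N ∈ L) (hNN : N * N = 0) : Exc (rk N) (finrank K V) := by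
  have hω := hC.nd
  have hk : LieAlgebra.IsKilling K L := killing_of hω hC.irr
  by_cases hab : IsLieAbelian L
  · exfalso
    have hsub : Subsingleton L := LieAlgebra.subsingleton_of_hasTrivialRadical_lie_abelian K L
    obtain ⟨v, hv⟩ := exists_ne (0 : V)
    have h1 : Submodule.span K {v} = ⊤ := by
      rcases hC.irr.irr (Submodule.span K {v}) (by
        intro z hz w _
        have hz0 : z = 0 := congrArg Subtype.val (Subsingleton.elim (⟨z, hz⟩ : L) 0)
        rw [hz0, LinearMap.zero_apply]
        exact Submodule.zero_mem _) with h | h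
      · exfalso
        rw [Submodule.span_singleton_eq_bot] at h
        exact hv h
      · exact h
    apply hv
    apply hω.2
    intro w
    have hw : w ∈ Submodule.span K {v} := by rw [h1]; trivial
    obtain ⟨c, rfl⟩ := Submodule.mem_span_singleton.mp hw
    rw [map_smul, LinearMap.smul_apply, halt v, smul_zero]
  have hI : ∃ I : LieIdeal K L, I ≠ ⊥ ∧ I ≠ ⊤ := by
    by_contra hcon
    push Not at hcon
    apply hns
    exact { eq_bot_or_eq_top := fun I => by
              by_cases h : I = ⊥
              · exact Or.inl h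
              · exact Or.inr (hcon I h)
            non_abelian := hab }
  obtain ⟨I, hI0, hI1⟩ := hI
  set J : LieIdeal K L := Iᶜ with hJ
  have hinf : I ⊓ J = ⊥ := inf_compl_eq_bot
  have hsup : I ⊔ J = ⊤ := sup_compl_eq_top
  have hJ0 : J ≠ ⊥ := by
    intro h
    rw [h, sup_bot_eq] at hsup
    exact hI1 hsup
  set I' : Submodule K (Module.End K V) := I.toSubmodule.map L.toSubmodule.subtype with hI'
  set J' : Submodule K (Module.End K V) := J.toSubmodule.map L.toSubmodule.subtype with hJ'
  have memI : ∀ a : L, (a : Module.End K V) ∈ I' ↔ a ∈ I := by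
    intro a
    constructor
    · rintro ⟨b, hb, hba⟩
      have : b = a := Subtype.ext hba
      rw [← this]; exact hb
    · intro ha
      exact ⟨a, ha, rfl⟩
  have memJ : ∀ a : L, (a : Module.End K V) ∈ J' ↔ a ∈ J := by
    intro a
    constructor
    · rintro ⟨b, hb, hba⟩
      have : b = a := Subtype.ext hba
      rw [← this]; exact hb
    · intro ha
      exact ⟨a, ha, rfl⟩
  have exI : ∀ x ∈ I', ∃ a : L, a ∈ I ∧ (a : Module.End K V) = x := by
    rintro _ ⟨x, hx, rfl⟩
    exact ⟨x, hx, rfl⟩
  have exJ : ∀ x ∈ J', ∃ a : L, a ∈ J ∧ (a : Module.End K V) = x := by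
    rintro _ ⟨x, hx, rfl⟩
    exact ⟨x, hx, rfl⟩
  have brI : ∀ x ∈ I', ∀ z ∈ I', x * z - z * x ∈ I' := by
    intro x hx z hz
    obtain ⟨x, hx', rfl⟩ := exI x hx
    obtain ⟨z, hz', rfl⟩ := exI z hz
    exact (memI ⁅x, z⁆).mpr (I.lie_mem (x := x) hz')
  have brJ : ∀ x ∈ J', ∀ z ∈ J', x * z - z * x ∈ J' := by
    intro x hx z hz
    obtain ⟨x, hx', rfl⟩ := exJ x hx
    obtain ⟨z, hz', rfl⟩ := exJ z hz
    exact (memJ ⁅x, z⁆).mpr (J.lie_mem (x := x) hz')
  have split : ∀ z ∈ L, ∃ a ∈ I', ∃ b ∈ J', a + b = z := by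
    intro z hz
    have : (⟨z, hz⟩ : L) ∈ I ⊔ J := by rw [hsup]; trivial
    rw [LieSubmodule.mem_sup] at this
    obtain ⟨a, ha, b, hb, hab⟩ := this
    exact ⟨a, (memI a).mpr ha, b, (memJ b).mpr hb, congrArg Subtype.val hab⟩
  have hT : Two I' J' := by
    constructor
    · intro a ha b hb
      obtain ⟨a, ha', rfl⟩ := exI a ha
      obtain ⟨b, hb', rfl⟩ := exJ b hb
      have h1 : ⁅a, b⁆ ∈ I ⊓ J := by
        constructor
        · have := I.lie_mem (x := b) ha'
          rw [← lie_skew] at this
          exact (neg_mem_iff (H := I)).mp this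
        · exact J.lie_mem (x := a) hb'
      rw [hinf] at h1
      have h2 : ⁅a, b⁆ = 0 := (LieSubmodule.mem_bot _).mp h1
      have h3 := congrArg Subtype.val h2
      exact sub_eq_zero.mp h3
    · intro W h1 h2
      apply hC.irr.irr W
      intro z hz w hw
      obtain ⟨a, ha, b, hb, rfl⟩ := split z hz
      rw [LinearMap.add_apply]
      exact W.add_mem (h1 a ha w hw) (h2 b hb w hw)
  have skI : ∀ a ∈ I', MTP.IsSk ω a := by
    rintro _ ⟨a, _, rfl⟩
    exact hC.irr.sk a a.2
  have skJ : ∀ a ∈ J', MTP.IsSk ω a := by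
    rintro _ ⟨a, _, rfl⟩
    exact hC.irr.sk a a.2
  have hS : ∀ s ∈ S, s ∈ I' ∨ s ∈ J' := by
    intro s hs
    obtain ⟨hsL, hss⟩ := hC.inv s hs
    obtain ⟨a, ha, b, hb, rfl⟩ := split s hsL
    rcases hT.inv_split hω skI ha hb hss with h | h
    · right; rw [h, zero_add]; exact hb
    · left; rw [h, add_zero]; exact ha
  have h1 : ∃ s ∈ S, s ∈ I' := by
    by_contra hcon
    push Not at hcon
    have h2 := hC.gen J' brJ (fun s hs => (hS s hs).resolve_left (hcon s hs))
    apply hI0
    rw [eq_bot_iff, ← hinf]
    intro a ha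
    exact ⟨ha, (memJ a).mp (h2 a.2)⟩
  have h2 : ∃ s ∈ S, s ∈ J' := by
    by_contra hcon
    push Not at hcon
    have h2 := hC.gen I' brI (fun s hs => (hS s hs).resolve_right (hcon s hs))
    apply hJ0
    rw [eq_bot_iff, ← hinf]
    intro a ha
    exact ⟨(memI a).mp (h2 a.2), ha⟩
  obtain ⟨s1, hs1, hs1'⟩ := h1
  obtain ⟨s2, hs2, hs2'⟩ := h2
  obtain ⟨y1, hy1, y2, hy2, rfl⟩ := split N hN
  rcases split_sq hT hω skI hy1 hy2 hNN with h | h
  · subst h
    rw [zero_add] at hNN ⊢
    exact two_exc hT.symm hω halt skJ skI brJ brI hs2' (hC.inv s2 hs2).2 hs1' (hC.inv s1 hs1).2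
      hy2 hNN
  · subst h
    rw [add_zero] at hNN ⊢
    exact two_exc hT hω halt skI skJ brI brJ hs1' (hC.inv s1 hs1).2 hs2' (hC.inv s2 hs2).2
      hy1 hNN

end TR
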