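import Pool.Agent.Helper98.TR.Cnt3
import Pool.Agent.Helper14.TR.Defs

/-!
The theorem on a dominating middle eigenvalue for one block of several (MP_b8862a_ag): the elements of `L` used to
exclude the tensor products may have other multiplicities than the given one, but the eigenvalue zero must dominate
in each of them.
-/

set_option linter.unusedSectionVars false

open Matrix
open scoped ComplexOrder

namespace MH

variable {n : Type*} [Fintype n] [DecidableEq n]
variable {h : Matrix n n ℂ} {E : ℝ → Matrix n n ℂ} {Λ : Finset ℝ}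
variable {τ : Matrix n n ℂ →ₗ[ℂ] Matrix n n ℂ} {L : Submodule ℂ (Matrix n n ℂ)}

/-- variant of `scalar_of2` for an element with other multiplicities -/
theorem scalar_of3 {ι : Type*} [Fintype ι] [DecidableEq ι] {e : Matrix n n ℂ} {w : ι → Matrix n n ℂ} (U : MU e w)
    {l c : Matrix n n ℂ} {t : ι → ι → ℂ} {F : ℝ → Matrix n n ℂ} {Λ : Finset ℝ} (hc : e * c = c) (hc' : c * e = c)
    (hl : ∀ a b, (w a)ᴴ * l * w b = (if a = b then c else 0) + t a b • e) (D : SD l F Λ) (hr : 2 ≤ e.rank)
    (hN : e.rank + 2 ≤ Fintype.card ι) (hcard : Fintype.card ι * e.rank = Fintype.card n) {s : ℕ} (hB : Big F s) :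
    ∃ γ : ℂ, c = γ • e :=
  scalar_of3a U hc hc' hl D (hcard.trans hB.2.1) hB.1 hN hr le_rfl hB.2.2

/-- The theorem on a dominating middle eigenvalue, with the condition on the common divisor replaced by a
condition on the elements of `L` in which the eigenvalue zero dominates. -/
theorem Dat.main_core3 (D : Dat τ L h E Λ) (hs : 2 ≤ (Pp E Λ).rank) (hb : (Pp E Λ).rank ^ 2 < (E 0).rank)
    (hU : TP τ L E)
    (hG : ∀ T : Matrix n n ℂ, (∀ l ∈ L, ∀ (F : ℝ → Matrix n n ℂ) (Λ' : Finset ℝ) (s : ℕ), SD l F Λ' → Big F s →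
      T * l = l * T) → ∃ c : ℂ, T = c • (1 : Matrix n n ℂ)) {x : Matrix n n ℂ} (hx : τ x = -x) : x ∈ L := by
  classical
  obtain ⟨e, hee, hes, he0, hfull, ι, _, _, w, kap, hwe, hww, hE, hsum, hcard, hrk, hL⟩ := hU
  by_cases hr1 : e.rank = 1
  · exact hfull hr1 x hx
  exfalso
  have U : MU e w := ⟨hee, hes, hwe, hww, hsum⟩
  have hr0 : e.rank ≠ 0 := by
    intro h0
    apply he0
    rw [Matrix.rank, Submodule.finrank_eq_zero, LinearMap.range_eq_bot] at h0
    apply Matrix.toLin'.injective
    rw [map_zero]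
    exact h0
  have hr : 2 ≤ e.rank := by omega
  set r := e.rank with hrdef
  set b := (Finset.univ.filter (kap · = 0)).card with hbdef
  set s := ∑ μ ∈ Λ.filter (fun μ => 0 < μ), (Finset.univ.filter (kap · = μ)).card with hsdef
  have hE0 : (E 0).rank = b * r := (hrk 0).symm
  have hP : (Pp E Λ).rank = s * r := by
    rw [D.rank_Pp, hsdef, Finset.sum_mul]
    exact Finset.sum_congr rfl fun μ _ => (hrk μ).symm
  have hN : Fintype.card ι = b + 2 * s := by
    have h1 := D.card_eq
    rw [← hcard, hE0, hP] at h1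
    have h2 : Fintype.card ι * r = (b + 2 * s) * r := by rw [h1]; ring
    exact Nat.eq_of_mul_eq_mul_right (by omega) h2
  have hs1 : 1 ≤ s := by
    rw [hP] at hs
    by_contra h0
    have : s = 0 := by omega
    rw [this] at hs
    omega
  have hb' : s ^ 2 * r < b := by
    rw [hP, hE0] at hb
    have h1 : (s ^ 2 * r) * r < b * r := by
      calc (s ^ 2 * r) * r = (s * r) ^ 2 := by ring
        _ < b * r := hb
    exact lt_of_mul_lt_mul_right h1 (Nat.zero_le _)
  have hNr : r + 2 ≤ Fintype.card ι := by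
    have h1 : 1 * r ≤ s ^ 2 * r := Nat.mul_le_mul_right _ (Nat.one_le_pow _ _ hs1)
    omega
  have hι : Nonempty ι := by
    rw [← Fintype.card_pos_iff]
    omega
  obtain ⟨a0⟩ := hι
  -- every element of e M e is a scalar
  have hsc : ∀ z : Matrix n n ℂ, e * z * e = z → ∃ κ : ℂ, z = κ • e := by
    intro z hz
    have hez : e * z = z := by rw [← hz, ← mul_assoc, ← mul_assoc, hee]
    have hze : z * e = z := by rw [← hz, mul_assoc, hee]
    have hT := hG (∑ a, w a * z * (w a)ᴴ) (by
      intro l hl F Λ' s' hF hBig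
      obtain ⟨c, t, hc, hct⟩ := hL l hl
      have hec : e * c = c := by rw [← hc, ← mul_assoc, ← mul_assoc, hee]
      have hce : c * e = c := by rw [← hc, mul_assoc, hee]
      obtain ⟨γ, hγ⟩ := scalar_of3 U hec hce hct hF hr hNr hcard hBig
      -- l in matrix units
      have hl1 : ∀ a, w a * z * (w a)ᴴ * l = ∑ b, ((if a = b then γ else 0) + t a b) • (w a * z * (w b)ᴴ) := by
        intro a
        have h1 : (w a)ᴴ * l = ∑ b, ((if a = b then γ else 0) + t a b) • (w b)ᴴ := by
          have h2 : (w a)ᴴ * l = ∑ b, ((w a)ᴴ * l * w b) * (w b)ᴴ := by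
            simp_rw [mul_assoc, ← Finset.mul_sum]
            rw [hsum, mul_one]
          rw [h2]
          refine Finset.sum_congr rfl fun b _ => ?_
          rw [hct, hγ, add_mul, smul_mul_assoc, U.ew, add_smul]
          congr 1
          split_ifs
          · rw [smul_mul_assoc, U.ew]
          · rw [zero_mul, zero_smul]
        rw [mul_assoc, h1, Finset.mul_sum]
        exact Finset.sum_congr rfl fun b _ => by rw [mul_smul_comm]
      have hl2 : ∀ b, l * (w b * z * (w b)ᴴ) = ∑ a, ((if a = b then γ else 0) + t a b) • (w a * z * (w b)ᴴ) := by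
        intro b
        have h1 : l * w b = ∑ a, ((if a = b then γ else 0) + t a b) • w a := by
          have h2 : l * w b = ∑ a, w a * ((w a)ᴴ * l * w b) := by
            simp_rw [← mul_assoc]
            rw [← Finset.sum_mul, ← Finset.sum_mul, hsum, one_mul]
          rw [h2]
          refine Finset.sum_congr rfl fun a _ => ?_
          rw [hct, hγ, mul_add, mul_smul_comm, hwe, add_smul]
          congr 1
          split_ifs
          · rw [mul_smul_comm, hwe]
          · rw [mul_zero, zero_smul]
        rw [← mul_assoc, ← mul_assoc, h1, Finset.sum_mul, Finset.sum_mul]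
        exact Finset.sum_congr rfl fun a _ => by rw [smul_mul_assoc, smul_mul_assoc]
      rw [Finset.sum_mul, Finset.mul_sum]
      simp_rw [hl1, hl2]
      rw [Finset.sum_comm])
    obtain ⟨κ, hκ⟩ := hT
    refine ⟨κ, ?_⟩
    have h1 : (w a0)ᴴ * (∑ a, w a * z * (w a)ᴴ) * w a0 = z := by
      rw [Finset.mul_sum, Finset.sum_mul, Finset.sum_eq_single a0]
      · have : (w a0)ᴴ * (w a0 * z * (w a0)ᴴ) * w a0 = ((w a0)ᴴ * w a0) * z * ((w a0)ᴴ * w a0) := by
          simp only [mul_assoc]
        rw [this, hww, if_pos rfl, hz]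
      · intro a _ ha
        have : (w a0)ᴴ * (w a * z * (w a)ᴴ) * w a0 = ((w a0)ᴴ * w a) * z * ((w a)ᴴ * w a0) := by
          simp only [mul_assoc]
        rw [this, hww, if_neg (Ne.symm ha), zero_mul, zero_mul]
      · intro h0
        exact absurd (Finset.mem_univ _) h0
    rw [← h1, hκ, mul_smul_comm, mul_one, smul_mul_assoc, hww, if_pos rfl]
  -- a vector in the range of e
  have hu : ∃ u : n → ℂ, e *ᵥ u = u ∧ u ≠ 0 := by
    by_contra hcon
    push Not at hcon
    apply he0
    apply Matrix.toLin'.injective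
    apply LinearMap.ext
    intro v
    rw [map_zero, LinearMap.zero_apply, Matrix.toLin'_apply]
    exact hcon (e *ᵥ v) (by rw [Matrix.mulVec_mulVec, hee])
  obtain ⟨u, hu, hu0⟩ := hu
  have huu : star u ⬝ᵥ u ≠ 0 := by
    intro h0
    exact hu0 (dotProduct_star_self_eq_zero.1 h0)
  set z := vecMulVec u (star u) with hzdef
  have huv : star u ᵥ* e = star u := by
    have h1 := congrArg star hu
    rwa [Matrix.star_mulVec, hes] at h1
  have hz : e * z * e = z := by
    rw [hzdef, Matrix.mul_vecMulVec, hu, Matrix.vecMulVec_mul, huv]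
  obtain ⟨κ, hκ⟩ := hsc z hz
  have hκ0 : κ ≠ 0 := by
    rintro rfl
    rw [zero_smul] at hκ
    have h1 := congrArg (fun M : Matrix n n ℂ => M *ᵥ u) hκ
    simp only [hzdef, Matrix.vecMulVec_mulVec, Matrix.zero_mulVec] at h1
    rcases smul_eq_zero.1 h1 with h2 | h2
    · exact huu (by simpa using h2)
    · exact hu0 h2
  have h1 : e.rank ≤ 1 := by
    have h2 : e = κ⁻¹ • z := by rw [hκ, smul_smul, inv_mul_cancel₀ hκ0, one_smul]
    have h3 : e = vecMulVec (κ⁻¹ • u) (star u) := by rw [h2, hzdef, Matrix.smul_vecMulVec]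
    rw [h3]
    exact Matrix.rank_vecMulVec_le _ _
  omega

end MH
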