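import Pool.Agent.Helper81.PF.C6
import Pool.Agent.Helper81.PG.Low
import Pool.Agent.Helper98.PG.Real

/-!
Project TR (MP_b8862a_ag), Lie inputs: a vector below the top level of an irreducible module is not killed by the root
vectors of positive level.
-/

set_option linter.unusedSectionVars false
set_option linter.unusedVariables false

open Module LieModule LieAlgebra LieAlgebra.IsKilling MTP.MF PF PF.CC

namespace TR

variable {K : Type*} [Field K] [CharZero K] [IsAlgClosed K]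
  {L : Type*} [LieRing L] [LieAlgebra K L] [FiniteDimensional K L] [IsKilling K L]
  {H : LieSubalgebra K L} [H.IsCartanSubalgebra]
  {V : Type*} [AddCommGroup V] [Module K V] [FiniteDimensional K V]
  [LieRingModule L V] [LieModule K L V] {I : Type*} [Fintype I] (B : WB (V := V) H I) {D : H}

/-- **A vector killed by the root vectors of positive level has the top level.** -/
theorem low98 (hrt : ∀ α : H.root, ∃ k : ℤ, α.1 D = (k : K))
    (hirr : ∀ W : Submodule K V, (∀ x : L, ∀ u ∈ W, ⁅x, u⁆ ∈ W) → W = ⊥ ∨ W = ⊤)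
    {c : K} {u : V} (hu : ⁅(D : L), u⁆ = c • u) {i : I} (hi : ∀ k : ℕ, B.w i D ≠ c - k)
    (h1 : ∀ (α : H.root) (k : ℤ), 0 < k → α.1 D = (k : K) → ∀ z ∈ rootSpace H α.1, ⁅z, u⁆ = 0) : u = 0 := by
  classical
  obtain ⟨W, hW⟩ : ∃ W : Submodule K V, W = sInf {U : Submodule K V | u ∈ U ∧ ∀ k : ℤ, k ≤ 0 →
    ∀ χ : H → K, χ D = (k : K) → ∀ z ∈ rootSpace H χ, ∀ w ∈ U, ⁅z, w⁆ ∈ U} := ⟨_, rfl⟩
  have hmin : ∀ U : Submodule K V, u ∈ U → (∀ k : ℤ, k ≤ 0 → ∀ χ : H → K, χ D = (k : K) → ∀ z ∈ rootSpace H χ,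
      ∀ w ∈ U, ⁅z, w⁆ ∈ U) → W ≤ U := fun U a1 a2 => by
    rw [hW]
    exact sInf_le ⟨a1, a2⟩
  have huW : u ∈ W := by
    rw [hW, Submodule.mem_sInf]
    exact fun U hU => hU.1
  have hneg : ∀ k : ℤ, k ≤ 0 → ∀ χ : H → K, χ D = (k : K) → ∀ z ∈ rootSpace H χ, ∀ w ∈ W, ⁅z, w⁆ ∈ W := by
    intro k hk χ hχ z hz w hw
    rw [hW, Submodule.mem_sInf] at hw ⊢
    intro U hU
    exact hU.2 k hk χ hχ z hz w (hw U hU)
  have hpos : ∀ w ∈ W, ∀ k : ℤ, 0 < k → ∀ χ : H → K, χ D = (k : K) → ∀ z ∈ rootSpace H χ, ⁅z, w⁆ ∈ W := by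
    have h2 : W ≤ { carrier := {w | w ∈ W ∧ ∀ k : ℤ, 0 < k → ∀ χ : H → K, χ D = (k : K) → ∀ z ∈ rootSpace H χ,
                      ⁅z, w⁆ ∈ W}
                    add_mem' := fun {a b} ha hb => ⟨W.add_mem ha.1 hb.1, fun k hk χ hχ z hz => by
                      rw [lie_add]
                      exact W.add_mem (ha.2 k hk χ hχ z hz) (hb.2 k hk χ hχ z hz)⟩
                    zero_mem' := ⟨W.zero_mem, fun k hk χ hχ z hz => by
                      rw [lie_zero]
                      exact W.zero_mem⟩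
                    smul_mem' := fun c a ha => ⟨W.smul_mem c ha.1, fun k hk χ hχ z hz => by
                      rw [lie_smul]
                      exact W.smul_mem c (ha.2 k hk χ hχ z hz)⟩ } := by
      apply hmin
      · refine ⟨huW, fun k hk χ hχ z hz => ?_⟩
        by_cases hz0 : z = 0
        · rw [hz0, zero_lie]
          exact W.zero_mem
        · obtain ⟨α, hα⟩ := PG.exists_root hz hz0 (D := D) (by
            rw [hχ]
            exact_mod_cast hk.ne')
          rw [h1 α k hk (by rw [hα, hχ]) z (by rw [hα]; exact hz)]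
          exact W.zero_mem
      · intro j hj ψ hψ y hy w hw
        refine ⟨hneg j hj ψ hψ y hy w hw.1, fun k hk χ hχ z hz => ?_⟩
        rw [leibniz_lie]
        have h3 : ⁅z, y⁆ ∈ rootSpace H (χ + ψ) := lie_mem_genWeightSpace_of_mem_genWeightSpace hz hy
        have h4 : (χ + ψ) D = ((k + j : ℤ) : K) := by
          rw [Pi.add_apply, hχ, hψ]
          push_cast
          ring
        refine W.add_mem ?_ (hneg j hj ψ hψ y hy _ (hw.2 k hk χ hχ z hz))
        rcases lt_or_ge 0 (k + j) with h5 | h5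
        · exact hw.2 _ h5 _ h4 _ h3
        · exact hneg _ h5 _ h4 _ h3 w hw.1
    exact fun w hw => (h2 hw).2
  have hstab : ∀ x : L, ∀ w ∈ W, ⁅x, w⁆ ∈ W := by
    intro x
    let X : Submodule K L :=
      { carrier := {x | ∀ w ∈ W, ⁅x, w⁆ ∈ W}
        add_mem' := by
          intro a b ha hb w hw
          rw [add_lie]
          exact add_mem (ha w hw) (hb w hw)
        zero_mem' := by
          intro w hw
          rw [zero_lie]
          exact zero_mem _
        smul_mem' := by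
          intro c a ha w hw
          rw [smul_lie]
          exact Submodule.smul_mem _ _ (ha w hw) }
    refine root_induction (U := X) (H := H) ?_ x
    intro α z hz
    change ∀ w ∈ W, ⁅z, w⁆ ∈ W
    obtain ⟨k, hk⟩ : ∃ k : ℤ, α D = (k : K) := by
      by_cases h0 : α.IsZero
      · exact ⟨0, by rw [Int.cast_zero]; exact congrFun h0 D⟩
      · exact hrt ⟨α, by simpa [LieSubalgebra.root] using h0⟩
    intro w hw
    rcases lt_or_ge 0 k with h5 | h5
    · exact hpos w hw k h5 α hk z hz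
    · exact hneg k h5 α hk z hz w hw
  rcases hirr W hstab with h2 | h2
  · rw [h2, Submodule.mem_bot] at huW
    exact huW
  · exfalso
    obtain ⟨U, hU⟩ : ∃ U : Submodule K V, U = Submodule.span K {v | ∃ k : ℕ, ⁅(D : L), v⁆ = (c - (k : K)) • v} := ⟨_, rfl⟩
    have hWU : W ≤ U := by
      apply hmin
      · rw [hU]
        exact Submodule.subset_span ⟨0, by rw [Nat.cast_zero, sub_zero]; exact hu⟩
      · intro j hj ψ hψ y hy w hw
        rw [hU] at hw ⊢
        induction hw using Submodule.span_induction with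
        | mem v hv =>
          obtain ⟨k, hk⟩ := hv
          obtain ⟨m, hm⟩ : ∃ m : ℕ, j = -(m : ℤ) := ⟨j.natAbs, by omega⟩
          refine Submodule.subset_span ⟨k + m, ?_⟩
          rw [PG.lvl_lie hy hk, hψ, hm]
          congr 1
          push_cast
          ring
        | zero => rw [lie_zero]; exact zero_mem _
        | add a b _ _ ha hb => rw [lie_add]; exact add_mem ha hb
        | smul c a _ ha => rw [lie_smul]; exact Submodule.smul_mem _ _ ha
    have h3 : B.v i ∈ U := hWU (by rw [h2]; trivial)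
    have h4 : ∀ v ∈ U, B.v.repr v i = 0 := by
      intro v hv
      rw [hU] at hv
      induction hv using Submodule.span_induction with
      | mem v hv =>
        obtain ⟨k, hk⟩ := hv
        exact PG.repr_eq_zero B hk (hi k)
      | zero => simp
      | add a b _ _ ha hb => rw [map_add, Finsupp.add_apply, ha, hb, add_zero]
      | smul c a _ ha => rw [map_smul, Finsupp.smul_apply, ha, smul_zero]
    have h5 := h4 _ h3
    rw [Basis.repr_self, Finsupp.single_eq_same] at h5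
    exact one_ne_zero h5

/-- a non-zero vector below the top level is moved up -/
theorem low_ex98 (hrt : ∀ α : H.root, ∃ k : ℤ, α.1 D = (k : K))
    (hirr : ∀ W : Submodule K V, (∀ x : L, ∀ u ∈ W, ⁅x, u⁆ ∈ W) → W = ⊥ ∨ W = ⊤)
    {c : K} {u : V} (hu : ⁅(D : L), u⁆ = c • u) (hu0 : u ≠ 0) {i : I} (hi : ∀ k : ℕ, B.w i D ≠ c - k) :
    ∃ (α : H.root) (k : ℤ), 0 < k ∧ α.1 D = (k : K) ∧ ∃ z ∈ rootSpace H α.1, ⁅z, u⁆ ≠ 0 := by
  by_contra! hcon
  exact hu0 (low98 B hrt hirr hu hi fun α k hk hα z hz => hcon α k hk hα z hz)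

variable {ω : LinearMap.BilinForm K V}

/-- the pairing of weight vectors -/
theorem pair_zero98 (hsk : ∀ (x : L) (u v : V), ω ⁅x, u⁆ v = - ω u ⁅x, v⁆) {χ : H → K} {u : V} (hu : IsW H χ u)
    {j : I} (hj : ω (B.v j) u ≠ 0) (h : H) : B.w j h = -χ h := by
  have h1 := hsk (h : L) (B.v j) u
  rw [B.lie_v, hu h, map_smul, LinearMap.smul_apply, map_smul, smul_eq_mul, smul_eq_mul] at h1
  have h2 : (B.w j h + χ h) * ω (B.v j) u = 0 := by linear_combination h1
  exact eq_neg_of_add_eq_zero_left ((mul_eq_zero.1 h2).resolve_right hj)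

theorem pair_ne98 (hnd : ω.Nondegenerate) (hsk : ∀ (x : L) (u v : V), ω ⁅x, u⁆ v = - ω u ⁅x, v⁆) {i : I}
    (h1 : One B i) {u : V} (hu : IsW H (fun h => -B.w i h) u) (hu0 : u ≠ 0) : ω (B.v i) u ≠ 0 := by
  intro h0
  apply hu0
  have h2 : ∀ v, ω v u = 0 := by
    intro v
    rw [← B.v.sum_repr v, map_sum, LinearMap.sum_apply]
    refine Finset.sum_eq_zero fun j _ => ?_
    rw [map_smul, LinearMap.smul_apply]
    by_cases hj : ω (B.v j) u = 0
    · rw [hj, smul_zero]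
    · exfalso
      have h3 : j = i := by
        apply h1
        ext h
        rw [pair_zero98 B hsk hu hj h, neg_neg]
      rw [h3] at hj
      exact hj h0
  exact hnd.2 u h2

/-- a vector of the opposite weight -/
theorem exists_opp98 (hnd : ω.Nondegenerate) (hsk : ∀ (x : L) (u v : V), ω ⁅x, u⁆ v = - ω u ⁅x, v⁆) (i : I) :
    ∃ v : V, v ≠ 0 ∧ IsW H (fun h => -B.w i h) v ∧ (One B i → ∀ u, IsW H (fun h => -B.w i h) u → ∃ c : K, u = c • v) := by
  classical
  refine ⟨(B.dual hnd hsk).v i, (B.dual hnd hsk).v.ne_zero i, fun h => (B.dual hnd hsk).lie_v i h, fun h1 u hu => ?_⟩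
  refine IsW.eq_smul (B := B.dual hnd hsk) (i := i) ?_ hu
  intro j hj
  apply h1
  have h2 : -B.w j = -B.w i := hj
  exact neg_injective h2

/-- the product of three commuting elements is symmetric -/
theorem sym98 (halt : ∀ u v, ω u v = -ω v u) (hsk : ∀ (x : L) (u v : V), ω ⁅x, u⁆ v = - ω u ⁅x, v⁆) {x y z : L}
    (hxy : ⁅x, y⁆ = 0) (hxz : ⁅x, z⁆ = 0) (hyz : ⁅y, z⁆ = 0) (u v : V) :
    ω ⁅x, ⁅y, ⁅z, u⁆⁆⁆ v = ω ⁅x, ⁅y, ⁅z, v⁆⁆⁆ u := by
  have c1 : ∀ w : V, ⁅x, ⁅y, w⁆⁆ = ⁅y, ⁅x, w⁆⁆ := fun w => by rw [leibniz_lie, hxy, zero_lie, zero_add]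
  have c2 : ∀ w : V, ⁅x, ⁅z, w⁆⁆ = ⁅z, ⁅x, w⁆⁆ := fun w => by rw [leibniz_lie, hxz, zero_lie, zero_add]
  have c3 : ∀ w : V, ⁅y, ⁅z, w⁆⁆ = ⁅z, ⁅y, w⁆⁆ := fun w => by rw [leibniz_lie, hyz, zero_lie, zero_add]
  have e : ⁅z, ⁅y, ⁅x, v⁆⁆⁆ = ⁅x, ⁅y, ⁅z, v⁆⁆⁆ := by rw [← c3 ⁅x, v⁆, ← c2 v, c1 ⁅z, v⁆]
  rw [hsk, hsk, hsk, neg_neg, e, halt, neg_neg]

/-- the product of two commuting elements is antisymmetric -/
theorem anti98 (halt : ∀ u v, ω u v = -ω v u) (hsk : ∀ (x : L) (u v : V), ω ⁅x, u⁆ v = - ω u ⁅x, v⁆) {x y : L}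
    (hxy : ⁅x, y⁆ = 0) (u v : V) : ω ⁅x, ⁅y, u⁆⁆ v = -ω ⁅x, ⁅y, v⁆⁆ u := by
  have c1 : ∀ w : V, ⁅x, ⁅y, w⁆⁆ = ⁅y, ⁅x, w⁆⁆ := fun w => by rw [leibniz_lie, hxy, zero_lie, zero_add]
  rw [hsk, hsk, neg_neg, ← c1, halt]

/-- Four values. -/
def Four (c : K) : Prop := c = 3 / 2 ∨ c = 1 / 2 ∨ c = -(1 / 2) ∨ c = -(3 / 2)

/-- the bracket of root vectors vanishes if the sum of the levels is not the level of a root -/
theorem lie_zero98 {α β : H → K} {x y : L} (hx : x ∈ rootSpace H α) (hy : y ∈ rootSpace H β) {c : K}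
    (hc : α D + β D = c) (c0 : c ≠ 0) (hrt : ∀ γ : H.root, γ.1 D ≠ c) : ⁅x, y⁆ = 0 := by
  by_contra h0
  obtain ⟨γ, hγ⟩ := PG.exists_root (D := D) (lie_mem_genWeightSpace_of_mem_genWeightSpace hx hy) h0 (by
    rw [Pi.add_apply, hc]
    exact c0)
  apply hrt γ
  rw [hγ, Pi.add_apply, hc]

end TR
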