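import Pool.Agent.Helper98.TR.Ant
import Pool.Agent.Helper94.TR.Defs

/-!
Project TR (MP_b8862a_ag): the inputs from Lie theory for the Euclidean part.
-/

set_option linter.unusedSectionVars false
set_option linter.unusedVariables false

open Module LieModule LieAlgebra LieAlgebra.IsKilling MTP.MF PF PF.CC PG

namespace TR

variable {K : Type*} [Field K] [CharZero K] [IsAlgClosed K]
  {L : Type*} [LieRing L] [LieAlgebra K L] [FiniteDimensional K L] [IsKilling K L]
  {H : LieSubalgebra K L} [H.IsCartanSubalgebra]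
  {V : Type*} [AddCommGroup V] [Module K V] [FiniteDimensional K V]
  [LieRingModule L V] [LieModule K L V] {I : Type*} [Fintype I] (B : WB (V := V) H I) {D : H}
  {ℓ : EuclideanSpace ℝ H.root →ₗ[ℝ] ℝ}

/-- the level of a root -/
theorem root_lev98 (hℓ : IsLev D ℓ) (hint : ∀ α : H.root, ∃ k : ℤ, α.1 D = (k : K)) (α : H.root) (k : ℤ) :
    ℓ (vec (rt (rootSystem H) α)) = k ↔ α.1 D = (k : K) := hℓ.root_iff (hint α) k

/-- the level of a weight -/
theorem four_lev98 (hℓ : IsLev D ℓ) {i : I} (hi : Four (B.w i D)) :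
    (ℓ (vec (wt B i)) = 3 / 2 ↔ B.w i D = 3 / 2) ∧ (ℓ (vec (wt B i)) = 1 / 2 ↔ B.w i D = 1 / 2) ∧
    (ℓ (vec (wt B i)) = 3 / 2 ∨ ℓ (vec (wt B i)) = 1 / 2 ∨ ℓ (vec (wt B i)) = -(1 / 2) ∨
      ℓ (vec (wt B i)) = -(3 / 2)) := by
  have key : ∀ q : ℚ, B.w i D = (q : K) → ℓ (vec (wt B i)) = (q : ℝ) := fun q hq =>
    hℓ (B.w i) (wt B i) (fun α => wt_spec B i α) q hq
  have hz : ∀ c : ℤ, (c : K) = 0 → c = 0 := fun c hc => by exact_mod_cast hc
  rcases hi with h | h | h | h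
  · have h1 := key (3 / 2) (by rw [h]; push_cast; ring)
    push_cast at h1
    rw [h1, h]
    refine ⟨by simp, ?_, Or.inl rfl⟩
    constructor
    · intro h2; norm_num at h2
    · intro h2
      have := hz 1 (by push_cast; linear_combination h2)
      omega
  · have h1 := key (1 / 2) (by rw [h]; push_cast; ring)
    push_cast at h1
    rw [h1, h]
    refine ⟨?_, by simp, Or.inr (Or.inl rfl)⟩
    constructor
    · intro h2; norm_num at h2
    · intro h2
      have := hz 1 (by push_cast; linear_combination -h2)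
      omega
  · have h1 := key (-(1 / 2)) (by rw [h]; push_cast; ring)
    push_cast at h1
    rw [h1, h]
    refine ⟨?_, ?_, Or.inr (Or.inr (Or.inl rfl))⟩
    · constructor
      · intro h2; norm_num at h2
      · intro h2
        have := hz 2 (by push_cast; linear_combination -h2)
        omega
    · constructor
      · intro h2; norm_num at h2
      · intro h2
        have := hz 1 (by push_cast; linear_combination -h2)
        omega
  · have h1 := key (-(3 / 2)) (by rw [h]; push_cast; ring)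
    push_cast at h1
    rw [h1, h]
    refine ⟨?_, ?_, Or.inr (Or.inr (Or.inr rfl))⟩
    · constructor
      · intro h2; norm_num at h2
      · intro h2
        have := hz 3 (by push_cast; linear_combination -h2)
        omega
    · constructor
      · intro h2; norm_num at h2
      · intro h2
        have := hz 2 (by push_cast; linear_combination -h2)
        omega

/-- at most one root of level three, from the gap theorem -/
theorem one3_98 (hℓ : IsLev D ℓ) (hint : ∀ α : H.root, ∃ k : ℤ, α.1 D = (k : K))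
    (hgap : ∀ x x' : L, ⁅(D : L), x⁆ = (3 : K) • x → ⁅(D : L), x'⁆ = (3 : K) • x' → x' ≠ 0 → ∃ c : K, x = c • x') :
    ∀ g ∈ Ph (rootSystem H), ∀ g' ∈ Ph (rootSystem H), ℓ g = 3 → ℓ g' = 3 → g = g' := by
  intro g hg g' hg' h1 h2
  obtain ⟨α, rfl⟩ := (mem_Ph _).1 hg
  obtain ⟨β, rfl⟩ := (mem_Ph _).1 hg'
  have h3 : α.1 D = (3 : K) := by
    have := (root_lev98 hℓ hint α 3).1 (by rw [h1]; norm_num)
    rw [this]
    norm_num
  have h4 : β.1 D = (3 : K) := by
    have := (root_lev98 hℓ hint β 3).1 (by rw [h2]; norm_num)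
    rw [this]
    norm_num
  obtain ⟨x, hx, hx0⟩ := α.1.exists_ne_zero
  obtain ⟨x', hx', hx'0⟩ := β.1.exists_ne_zero
  have e1 : ⁅(D : L), x⁆ = (3 : K) • x := by
    rw [← h3]
    exact lie_root hx D
  have e2 : ⁅(D : L), x'⁆ = (3 : K) • x' := by
    rw [← h4]
    exact lie_root hx' D
  obtain ⟨c, hc⟩ := hgap x x' e1 e2 hx'0
  have hc0 : c ≠ 0 := by
    rintro rfl
    rw [zero_smul] at hc
    exact hx0 hc
  have h5 : ∀ h : H, α.1 h = β.1 h := by
    intro h
    have e3 : ⁅(h : L), x⁆ = α.1 h • x := lie_root hx h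
    rw [hc, lie_smul, lie_root hx' h, smul_comm, smul_smul, smul_smul] at e3
    have e4 : (β.1 h * c - α.1 h * c) • x' = 0 := by rw [sub_smul, e3, sub_self]
    have e5 := (smul_eq_zero.1 e4).resolve_right hx'0
    have e6 : (α.1 h - β.1 h) * c = 0 := by linear_combination -e5
    exact sub_eq_zero.1 ((mul_eq_zero.1 e6).resolve_right hc0)
  have h6 : rt (rootSystem H) α = rt (rootSystem H) β := by
    funext γ
    have h7 : ((rt (rootSystem H) α γ : ℤ) : K) = (rt (rootSystem H) β γ : ℤ) := by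
      rw [← rt_spec, ← rt_spec, h5]
    exact_mod_cast h7
  rw [h6]

/-- the levels of the roots -/
theorem three_of98 (hℓ : IsLev D ℓ) (hint : ∀ α : H.root, ∃ k : ℤ, α.1 D = (k : K))
    (h1 : ∀ g ∈ Ph (rootSystem H), ℓ g ≤ 1) (α : H.root) : Three (α.1 D) := by
  obtain ⟨k, hk⟩ := hint α
  have h2 := h1 _ ((mem_Ph _).2 ⟨α, rfl⟩)
  rw [(root_lev98 hℓ hint α k).2 hk] at h2
  obtain ⟨β, hβ⟩ := exists_neg_root α
  have h3 := h1 _ ((mem_Ph _).2 ⟨β, rfl⟩)
  rw [(root_lev98 hℓ hint β (-k)).2 (by rw [hβ, hk, Int.cast_neg])] at h3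
  have h4 : k ≤ 1 := by exact_mod_cast h2
  have h5 : -k ≤ 1 := by exact_mod_cast h3
  have h6 : k = 0 ∨ k = 1 ∨ k = -1 := by omega
  rw [hk]
  rcases h6 with h | h | h <;> rw [h]
  · exact Or.inl (by simp)
  · exact Or.inr (Or.inl (by simp))
  · exact Or.inr (Or.inr (by simp))

theorem no_three98 (hℓ : IsLev D ℓ) (hint : ∀ α : H.root, ∃ k : ℤ, α.1 D = (k : K))
    (h1 : ∀ g ∈ Ph (rootSystem H), ℓ g ≤ 2) (α : H.root) : α.1 D ≠ 3 := by
  intro h3
  have h2 := h1 _ ((mem_Ph _).2 ⟨α, rfl⟩)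
  rw [(root_lev98 hℓ hint α 3).2 (by rw [h3]; norm_num)] at h2
  norm_num at h2

variable {ω : LinearMap.BilinForm K V}

/-- **The inputs from Lie theory.** -/
theorem inp98 {p : ℕ} {ν : ℕ → EuclideanSpace ℝ H.root} (hℓ : IsLev D ℓ)
    (hint : ∀ α : H.root, ∃ k : ℤ, α.1 D = (k : K)) (hw : ∀ i, Four (B.w i D))
    (hirr : ∀ W : Submodule K V, (∀ x : L, ∀ u ∈ W, ⁅x, u⁆ ∈ W) → W = ⊥ ∨ W = ⊤)
    (hfaith : ∀ x : L, (∀ u : V, ⁅x, u⁆ = 0) → x = 0)
    (hnd : ω.Nondegenerate) (halt : ∀ u v, ω u v = -ω v u)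
    (hsk : ∀ (x : L) (u v : V), ω ⁅x, u⁆ v = - ω u ⁅x, v⁆)
    (hgap : ∀ x x' : L, ⁅(D : L), x⁆ = (3 : K) • x → ⁅(D : L), x'⁆ = (3 : K) • x' → x' ≠ 0 → ∃ c : K, x = c • x')
    (hex : ∃ i, B.w i D = 3 / 2)
    (hone : ∀ i j, B.w i D = 3 / 2 → B.w j D = 3 / 2 → B.w i = B.w j → i = j)
    (cf : Cf (Ph (rootSystem H)) (Xw B) ℓ)
    (top : ∀ x, (x ∈ Xw B ∧ ℓ x = 3 / 2) ↔ ∃ i < p, x = ν i)
    (inj : ∀ i < p, ∀ j < p, ν i = ν j → i = j)
    (cfg : IsA (Ph (rootSystem H)) p ν ∨ (5 ≤ p ∧ IsB (Ph (rootSystem H)) p ν) ∨ (p = 3 ∧ IsB1 (Ph (rootSystem H)) ν))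
    (prime : p.Prime) (three : 3 ≤ p) : Inp (Ph (rootSystem H)) (Xw B) ℓ p ν := by
  have htop : ∀ i, B.w i D = 3 / 2 → ∃ j < p, vec (wt B i) = ν j := fun i hi =>
    (top _).1 ⟨(mem_Xw B).2 ⟨i, rfl⟩, (four_lev98 B hℓ (hw i)).1.2 hi⟩
  have htop' : ∀ j < p, ∃ i, B.w i D = 3 / 2 ∧ vec (wt B i) = ν j := by
    intro j hj
    obtain ⟨h1, h2⟩ := (top _).2 ⟨j, hj, rfl⟩
    obtain ⟨i, hi⟩ := (mem_Xw B).1 h1
    refine ⟨i, ?_, hi⟩
    rw [← hi] at h2
    exact (four_lev98 B hℓ (hw i)).1.1 h2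
  have hOne : ∀ i, B.w i D = 3 / 2 → One B i := by
    intro i hi j hj
    exact hone j i (by rw [hj, hi]) hi hj
  have hl1 : ∀ α : H.root, α.1 D = 1 → ℓ (vec (rt (rootSystem H) α)) = 1 := by
    intro α hα
    have := (root_lev98 hℓ hint α 1).2 (by rw [hα, Int.cast_one])
    rw [this, Int.cast_one]
  have hl1' : ∀ α : H.root, ℓ (vec (rt (rootSystem H) α)) = 1 → α.1 D = 1 := by
    intro α hα
    have := (root_lev98 hℓ hint α 1).1 (by rw [hα, Int.cast_one])
    rw [this, Int.cast_one]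
  have hl2' : ∀ α : H.root, ℓ (vec (rt (rootSystem H) α)) = 2 → α.1 D = 2 := by
    intro α hα
    have := (root_lev98 hℓ hint α 2).1 (by rw [hα]; norm_num)
    rw [this]
    norm_num
  refine ⟨cf, top, inj, cfg, prime, three, one3_98 hℓ hint hgap, ?_, ?_, ?_, ?_, ?_⟩
  · intro x hx hx1
    obtain ⟨i, rfl⟩ := (mem_Xw B).1 hx
    obtain ⟨j, hj, α, hα, hsum⟩ := half98 B hint hw hirr hex ((four_lev98 B hℓ (hw i)).2.1.1 hx1)
    obtain ⟨k, hk, hk'⟩ := htop j hj
    refine ⟨k, hk, _, (mem_Ph _).2 ⟨α, rfl⟩, hl1 α hα, ?_⟩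
    rw [← hk']
    have h1 : wt B j = wt B i + rt (rootSystem H) α := by
      have := wt_of B (i := i) (i' := j) (α := α) (k := 1) (fun x => by rw [hsum x]; push_cast; ring)
      rwa [one_smul] at this
    rw [h1, vec_add]
    abel
  · intro h1
    obtain ⟨i, hi⟩ := hex
    obtain ⟨j, hj, α, β, γ, hα, hβ, hγ, hsum⟩ := sum_three98 B (three_of98 hℓ hint h1) hirr hnd hsk hi
    obtain ⟨i', hi', hi''⟩ := htop i hi
    obtain ⟨j', hj', hj''⟩ := htop j hj
    refine ⟨i', hi', j', hj', _, (mem_Ph _).2 ⟨α, rfl⟩, _, (mem_Ph _).2 ⟨β, rfl⟩, _, (mem_Ph _).2 ⟨γ, rfl⟩,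
      hl1 α hα, hl1 β hβ, hl1 γ hγ, ?_⟩
    rw [← hi'', ← hj'', ← vec_add, ← vec_add, ← vec_add]
    congr 1
    funext δ
    have h2 := hsum (coroot δ.1)
    rw [wt_spec, wt_spec, rt_spec, rt_spec, rt_spec] at h2
    simp only [Pi.add_apply]
    exact_mod_cast h2
  · intro h1 hA
    obtain ⟨l, hl, hA⟩ := hA
    obtain ⟨i, hi, α, β, γ, hα, hβ, hγ, hsum⟩ := cubic98 B (three_of98 hℓ hint h1) hirr hnd halt hsk hOne (by
      intro i j hi hj hij
      obtain ⟨i', hi', hi''⟩ := htop i hi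
      obtain ⟨j', hj', hj''⟩ := htop j hj
      have hne : i' ≠ j' := by
        intro h2
        apply hij
        apply hone i j hi hj
        apply w_ext
        rw [hi'', hj'', h2]
      obtain ⟨a1, a2, a3⟩ := hA i' hi' j' hj' hne
      obtain ⟨α, hα⟩ := (mem_Ph _).1 a1
      refine ⟨α, fun h => ?_, ?_⟩
      · have h2 := w_sub B (i := i) (i' := j) (α := α) (by rw [hα, hi'', hj'']; abel) h
        rw [h2]
        ring
      · have h2 := co_vec (rootSystem H) (wt_wt B i) α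
        rw [hα, hi''] at h2
        unfold co at h2
        rw [a3 i' hi', a2, if_pos rfl, if_neg hne] at h2
        have h3 : ((wt B i α : ℤ) : ℝ) = 1 := by
          rw [← h2]
          field_simp
          ring
        have h4 : wt B i α = 1 := by exact_mod_cast h3
        omega) hex
    obtain ⟨i', hi', hi''⟩ := htop i hi
    refine ⟨i', hi', _, (mem_Ph _).2 ⟨α, rfl⟩, _, (mem_Ph _).2 ⟨β, rfl⟩, _, (mem_Ph _).2 ⟨γ, rfl⟩,
      hl1 α hα, hl1 β hβ, hl1 γ hγ, ?_⟩
    rw [← hi'', two_smul, ← vec_add, ← vec_add, ← vec_add]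
    congr 1
    funext δ
    have h2 := hsum (coroot δ.1)
    rw [wt_spec, rt_spec, rt_spec, rt_spec] at h2
    simp only [Pi.add_apply]
    exact_mod_cast h2
  · intro h1 b hb hb2
    obtain ⟨β, rfl⟩ := (mem_Ph _).1 hb
    obtain ⟨i, j, hi, hj, hij, α, hα, hsum⟩ := pair98 B hint hw hirr hnd halt hsk hfaith (no_three98 hℓ hint h1) hOne β
      (hl2' β hb2)
    obtain ⟨i', hi', hi''⟩ := htop i hi
    obtain ⟨j', hj', hj''⟩ := htop j hj
    refine ⟨i', hi', j', hj', ?_, _, (mem_Ph _).2 ⟨α, rfl⟩, hl1 α hα, ?_⟩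
    · intro h2
      apply hij
      apply hone i j hi hj
      apply w_ext
      rw [hi'', hj'', h2]
    · rw [← hi'', ← hj'', ← vec_add, ← vec_add]
      congr 1
      funext δ
      have h2 := hsum (coroot δ.1)
      rw [wt_spec, wt_spec, rt_spec, rt_spec] at h2
      simp only [Pi.add_apply]
      exact_mod_cast h2
  · intro h1 i hi b hb a ha hb2 ha1 hab hc1 hc2
    obtain ⟨β, rfl⟩ := (mem_Ph _).1 hb
    obtain ⟨α, rfl⟩ := (mem_Ph _).1 ha
    obtain ⟨i', hi', hi''⟩ := htop' i hi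
    have e1 : wt B i' β = 1 := by
      have h2 := co_vec (rootSystem H) (wt_wt B i') β
      rw [hi'', hc1] at h2
      exact_mod_cast h2.symm
    have e2 : rt (rootSystem H) β α < wt B i' α := by
      rw [PG.co_sub, ← hi'', co_vec _ (wt_rt _ β) α, co_vec _ (wt_wt B i') α] at hc2
      have h3 : ((rt (rootSystem H) β α : ℤ) : ℝ) < (wt B i' α : ℤ) := by linarith
      exact_mod_cast h3
    refine line98 B hnd halt hsk (no_three98 hℓ hint h1) (hOne i' hi') (hl1' α ha1) (hl2' β hb2) (fun h => ?_)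
      (by omega) e2
    have h4 : rt (rootSystem H) α + rt (rootSystem H) β = wt B i' + wt B i' := by
      apply vec_inj
      rw [vec_add, vec_add, hab, hi'', two_smul]
    have h5 : (α.1 : Weight K H L).toLinear + (β.1 : Weight K H L).toLinear = (2 : K) • B.w i' := by
      refine dual_ext fun δ => ?_
      rw [LinearMap.add_apply, Weight.toLinear_apply, Weight.toLinear_apply, LinearMap.smul_apply, rt_spec,
        rt_spec, wt_spec, smul_eq_mul]
      have h6 := congrFun h4 δ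
      simp only [Pi.add_apply] at h6
      have h7 : ((rt (rootSystem H) α δ + rt (rootSystem H) β δ : ℤ) : K) = ((wt B i' δ + wt B i' δ : ℤ) : K) := by
        rw [h6]
      push_cast at h7
      rw [h7]
      ring
    have h8 := congrArg (fun φ : Dual K H => φ h) h5
    simpa using h8

end TR
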