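import Pool.Agent.Helper98.PG.HodgeG
import Pool.Agent.Helper27.GP.GapEnd

/-!
Project TR (MP_b8862a_ag): the gap theorem for a simple Lie algebra of endomorphisms, an alternating form and any levels.
-/

set_option linter.unusedSectionVars false
set_option linter.unusedVariables false

open Matrix Module

attribute [local instance 100] LieRing.ofAssociativeRing

namespace MH

variable {V : Type*} [AddCommGroup V] [Module ℂ V] [FiniteDimensional ℂ V]

/-- the spectral decomposition of a diagonal matrix -/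
theorem sd_diag98 {I : Type*} [Fintype I] [DecidableEq I] (a : I → ℝ) :
    SD (Matrix.diagonal fun i => (a i : ℂ)) (fun μ : ℝ => Matrix.diagonal fun i => if a i = μ then (1 : ℂ) else 0)
      (Finset.univ.image a) := by
  refine ⟨fun μ ν => ?_, ?_, ?_⟩
  · rw [Matrix.diagonal_mul_diagonal]
    by_cases h : μ = ν
    · rw [if_pos h, h]
      congr 1
      funext i
      split_ifs <;> simp
    · rw [if_neg h, ← Matrix.diagonal_zero]
      congr 1
      funext i
      by_cases h1 : a i = μ
      · have h2 : a i ≠ ν := fun h3 => h (h1.symm.trans h3)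
        rw [if_neg h2, mul_zero]
      · rw [if_neg h1, zero_mul]
  · ext i j
    rw [Matrix.sum_apply]
    by_cases hij : i = j
    · subst hij
      simp only [Matrix.diagonal_apply_eq, Matrix.one_apply_eq]
      rw [Finset.sum_ite_eq, if_pos (Finset.mem_image_of_mem _ (Finset.mem_univ _))]
    · simp only [Matrix.diagonal_apply_ne _ hij, Matrix.one_apply_ne hij, Finset.sum_const_zero]
  · ext i j
    rw [Matrix.sum_apply]
    by_cases hij : i = j
    · subst hij
      simp only [Matrix.smul_apply, Matrix.diagonal_apply_eq, smul_eq_mul, mul_ite, mul_one, mul_zero]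
      rw [Finset.sum_ite_eq, if_pos (Finset.mem_image_of_mem _ (Finset.mem_univ _))]
    · simp only [Matrix.smul_apply, Matrix.diagonal_apply_ne _ hij, smul_zero, Finset.sum_const_zero]

/-- **The gap theorem** for endomorphisms, alternating form. -/
theorem gap_endS98 {I : Type*} [Fintype I] [DecidableEq I] (b : Basis I ℂ V) (a : I → ℝ)
    {ω : LinearMap.BilinForm ℂ V} (halt : ∀ u v, ω u v = -ω v u) (hnd : ω.Nondegenerate)
    (L : LieSubalgebra ℂ (Module.End ℂ V)) [LieAlgebra.IsSimple ℂ L]
    (hirr : ∀ W : Submodule ℂ V, (∀ x ∈ L, ∀ u ∈ W, x u ∈ W) → W = ⊥ ∨ W = ⊤)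
    (hsk : ∀ x ∈ L, ∀ u v, ω (x u) v = -ω u (x v)) {y : Module.End ℂ V} (hy : y ∈ L)
    (hb : ∀ i, y (b i) = (a i : ℂ) • b i) {t : ℝ} (ht : 0 < t) (htop : ∀ i, a i ≤ t)
    (hmid : ∃ i, a i ≠ t ∧ a i ≠ -t) :
    (∀ x ∈ L, ∀ x' ∈ L, y * x - x * y = ((2 * t : ℝ) : ℂ) • x → y * x' - x' * y = ((2 * t : ℝ) : ℂ) • x' → x' ≠ 0 →
      ∃ c : ℂ, x = c • x') ∨ ∀ x : Module.End ℂ V, (∀ u v, ω (x u) v = -ω u (x v)) → x ∈ L := by
  classical
  let e := LinearMap.toMatrixAlgEquiv b
  have he : ∀ x : Module.End ℂ V, e x = LinearMap.toMatrix b b x := fun x => rfl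
  let Lm : Submodule ℂ (Matrix (I) (I) ℂ) :=
    { carrier := {X | e.symm X ∈ L}
      add_mem' := fun {X Y} hX hY => by
        change e.symm (X + Y) ∈ L
        rw [map_add]; exact L.add_mem hX hY
      zero_mem' := by
        change e.symm 0 ∈ L
        rw [map_zero]; exact L.zero_mem
      smul_mem' := fun c X hX => by
        change e.symm (c • X) ∈ L
        rw [map_smul]; exact L.smul_mem c hX }
  have hLm : ∀ X, X ∈ Lm ↔ e.symm X ∈ L := fun X => Iff.rfl
  have hLe : ∀ x : Module.End ℂ V, e x ∈ Lm ↔ x ∈ L := fun x => by rw [hLm, AlgEquiv.symm_apply_apply]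
  let Q' := LinearMap.BilinForm.toMatrix b ω
  have hQs : Q'ᵀ = -Q' := by
    ext i j
    rw [Matrix.transpose_apply, Matrix.neg_apply]
    change LinearMap.BilinForm.toMatrix b ω j i = -LinearMap.BilinForm.toMatrix b ω i j
    rw [LinearMap.BilinForm.toMatrix_apply, LinearMap.BilinForm.toMatrix_apply]
    exact halt (b j) (b i)
  have hdet : Q'.det ≠ 0 := (LinearMap.BilinForm.nondegenerate_iff_det_ne_zero b).mp hnd
  have hunit : IsUnit Q'.det := isUnit_iff_ne_zero.mpr hdet
  have hQ1 : Q' * Q'⁻¹ = 1 := Matrix.mul_nonsing_inv _ hunit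
  have hQ2 : Q'⁻¹ * Q' = 1 := Matrix.nonsing_inv_mul _ hunit
  have hskew : ∀ x : Module.End ℂ V, (e x)ᵀ * Q' + Q' * (e x) = 0 ↔ ∀ u v, ω (x u) v = -ω u (x v) := by
    intro x
    have e1 : (e x)ᵀ * Q' = LinearMap.BilinForm.toMatrix b (ω.compLeft x) :=
      (LinearMap.BilinForm.toMatrix_compLeft b ω x).symm
    have e2 : Q' * (e x) = LinearMap.BilinForm.toMatrix b (ω.compRight x) :=
      (LinearMap.BilinForm.toMatrix_compRight b ω x).symm
    rw [e1, e2, ← map_add]
    constructor
    · intro h0 u v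
      have h1 : ω.compLeft x + ω.compRight x = 0 := by
        apply (LinearMap.BilinForm.toMatrix b).injective
        rw [h0, map_zero]
      have h2 := LinearMap.congr_fun (LinearMap.congr_fun h1 u) v
      exact eq_neg_of_add_eq_zero_left h2
    · intro h0
      have h1 : ω.compLeft x + ω.compRight x = 0 := by
        ext u v
        change ω (x u) v + ω u (x v) = 0
        rw [h0 u v]
        ring
      rw [h1, map_zero]
  have hbr : ∀ X ∈ Lm, ∀ Y ∈ Lm, X * Y - Y * X ∈ Lm := by
    intro X hX Y hY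
    rw [hLm, map_sub, map_mul, map_mul]
    exact L.lie_mem hX hY
  have hsm : ∀ W : Submodule ℂ (I → ℂ), (∀ X ∈ Lm, ∀ w ∈ W, X *ᵥ w ∈ W) → W = ⊥ ∨ W = ⊤ := by
    intro W hW
    rcases hirr (W.comap b.equivFun.toLinearMap) (by
      intro x hx u hu
      rw [Submodule.mem_comap] at hu ⊢
      have h1 := hW (e x) ((hLe x).2 hx) _ hu
      have h2 : e x *ᵥ (b.equivFun.toLinearMap u) = b.equivFun.toLinearMap (x u) := by
        have := LinearMap.toMatrix_mulVec_repr b b x u
        exact this
      rwa [h2] at h1) with h0 | h0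
    · left
      rw [eq_bot_iff]
      intro w hw
      have h1 : b.equivFun.symm w ∈ W.comap b.equivFun.toLinearMap := by
        rw [Submodule.mem_comap]
        change b.equivFun (b.equivFun.symm w) ∈ W
        rwa [LinearEquiv.apply_symm_apply]
      rw [h0, Submodule.mem_bot] at h1
      rw [Submodule.mem_bot]
      have h2 := congrArg b.equivFun h1
      rwa [LinearEquiv.apply_symm_apply, map_zero] at h2
    · right
      rw [eq_top_iff]
      intro w _
      have h1 : b.equivFun.symm w ∈ W.comap b.equivFun.toLinearMap := by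
        rw [h0]
        exact Submodule.mem_top
      rw [Submodule.mem_comap] at h1
      have h2 : b.equivFun (b.equivFun.symm w) ∈ W := h1
      rwa [LinearEquiv.apply_symm_apply] at h2
  have hsimp : Smp Lm := by
    intro K hK hid
    let I : LieIdeal ℂ L :=
      { carrier := {x | e x.1 ∈ K}
        add_mem' := fun {x y} hx hy => by
          change e (x.1 + y.1) ∈ K
          rw [map_add]; exact K.add_mem hx hy
        zero_mem' := by
          change e 0 ∈ K
          rw [map_zero]; exact K.zero_mem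
        smul_mem' := fun c x hx => by
          change e (c • x.1) ∈ K
          rw [map_smul]; exact K.smul_mem c hx
        lie_mem := fun {x m} hm => by
          change e (x.1 * m.1 - m.1 * x.1) ∈ K
          rw [map_sub, map_mul, map_mul]
          exact hid _ ((hLe x.1).2 x.2) _ hm }
    rcases LieAlgebra.IsSimple.eq_bot_or_eq_top (R := ℂ) I with h0 | h0
    · left
      rw [eq_bot_iff]
      intro X hX
      have h1 : (⟨e.symm X, hK hX⟩ : L) ∈ I := by
        change e (e.symm X) ∈ K
        rwa [AlgEquiv.apply_symm_apply]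
      rw [h0, LieSubmodule.mem_bot] at h1
      have h2 : e.symm X = 0 := congrArg Subtype.val h1
      rw [Submodule.mem_bot]
      have h3 := congrArg e h2
      rwa [AlgEquiv.apply_symm_apply, map_zero] at h3
    · right
      apply le_antisymm hK
      intro X hX
      have h1 : (⟨e.symm X, hX⟩ : L) ∈ I := by
        rw [h0]
        exact LieSubmodule.mem_top _
      have h2 : e (e.symm X) ∈ K := h1
      rwa [AlgEquiv.apply_symm_apply] at h2
  have hey : e y = Matrix.diagonal fun i => (a i : ℂ) := by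
    ext i j
    rw [he, LinearMap.toMatrix_apply, hb, map_smul, Finsupp.smul_apply, Basis.repr_self, smul_eq_mul]
    by_cases hij : i = j
    · subst hij
      rw [Finsupp.single_eq_same, Matrix.diagonal_apply_eq, mul_one]
    · rw [Finsupp.single_eq_of_ne hij, Matrix.diagonal_apply_ne _ hij, mul_zero]
  have hSD := sd_diag98 a
  rw [← hey] at hSD
  obtain ⟨i0, m1, m2⟩ := hmid
  have hne : ∀ μ : ℝ, (Matrix.diagonal fun i => if a i = μ then (1 : ℂ) else 0) ≠ 0 → ∃ i, a i = μ := by
    intro μ h0
    by_contra! h1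
    apply h0
    rw [← Matrix.diagonal_zero]
    congr 1
    funext i
    exact if_neg (h1 i)
  have hdeg : ∀ x : Module.End ℂ V, x ∈ L → y * x - x * y = ((2 * t : ℝ) : ℂ) • x → e x ∈ Ld Lm (e y) (2 * t) := by
    intro x hx h1
    rw [mem_Ld, hLe, ← map_mul, ← map_mul, ← map_sub, h1, map_smul]
    exact ⟨hx, rfl⟩
  rcases gap_levelsS98 hQs hQ1 hQ2 hbr hsm (fun X hX => by
    have h1 := (hskew (e.symm X)).2 (hsk _ hX)
    rwa [AlgEquiv.apply_symm_apply] at h1) hsimp ((hLe y).2 hy) hSD ht (fun μ hμ => by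
      obtain ⟨i, rfl⟩ := hne μ hμ
      exact htop i) ⟨a i0, m1, m2, by
      intro h0
      have h1 := congrFun (congrFun h0 i0) i0
      rw [Matrix.diagonal_apply_eq, if_pos rfl, Matrix.zero_apply] at h1
      exact one_ne_zero h1⟩ with h5 | ⟨h5, -⟩ | h5
  · left
    intro x hx x' hx' h6 h7 h8
    exfalso
    apply h8
    have h9 := hdeg x' hx' h7
    rw [h5, Submodule.mem_bot] at h9
    exact e.injective (by rw [h9, map_zero])
  · left
    intro x hx x' hx' h6 h7 h8
    obtain ⟨v, hv, hv'⟩ := finrank_eq_one_iff'.1 h5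
    obtain ⟨c, hc⟩ := hv' ⟨e x, hdeg x hx h6⟩
    obtain ⟨d, hd⟩ := hv' ⟨e x', hdeg x' hx' h7⟩
    have hc' : c • (v : Matrix I I ℂ) = e x := congrArg Subtype.val hc
    have hd' : d • (v : Matrix I I ℂ) = e x' := congrArg Subtype.val hd
    have hd0 : d ≠ 0 := by
      rintro rfl
      apply h8
      apply e.injective
      rw [← hd', zero_smul, map_zero]
    refine ⟨c * d⁻¹, e.injective ?_⟩
    rw [map_smul, ← hc', ← hd', smul_smul, mul_assoc, inv_mul_cancel₀ hd0, mul_one]
  · right
    intro x hx
    exact (hLe x).1 (h5 _ ((hskew x).2 hx))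

end MH
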