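import Pool.Agent.Helper98.TR.Mult
import Pool.Agent.Helper98.TR.GapS
import Pool.Agent.Helper98.PG.Setup
import Pool.Agent.Helper94.TR.Cfg
import Pool.Agent.Helper94.TR.Final

/-!
Project TR (MP_b8862a_ag): a simple irreducible Lie algebra of endomorphisms which are skew for an alternating form
and a grading element with the eigenvalues `3/2, 1/2, -1/2, -3/2` and the multiplicities `p, h, h, p`, `p` an odd prime.
-/

set_option linter.unusedSectionVars false
set_option linter.unusedVariables false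

open Module LieModule LieAlgebra LieAlgebra.IsKilling MTP.MF PF PF.CC PG

attribute [local instance 100] LieRing.ofAssociativeRing

open Pool.Agent.Helper54.MT (semisimple_of_diag exists_cartan_end killing_of)

namespace TR

section Mod

variable {K : Type*} [Field K] [CharZero K] [IsAlgClosed K]
  {L : Type*} [LieRing L] [LieAlgebra K L] [FiniteDimensional K L] [IsKilling K L]
  {H : LieSubalgebra K L} [H.IsCartanSubalgebra]
  {V : Type*} [AddCommGroup V] [Module K V] [FiniteDimensional K V]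
  [LieRingModule L V] [LieModule K L V] {I : Type*} [Fintype I] (B : WB (V := V) H I)

/-- The multiplicity of the level `1/2`. -/
theorem level_half98 [LieAlgebra.IsSimple K L] [(rootSystem H).IsIrreducible] [Nonempty H.root] [Nonempty I]
    {ω : LinearMap.BilinForm K V}
    (hirr : ∀ W : Submodule K V, (∀ x : L, ∀ u ∈ W, ⁅x, u⁆ ∈ W) → W = ⊥ ∨ W = ⊤)
    (hfaith : ∀ x : L, (∀ u : V, ⁅x, u⁆ = 0) → x = 0)
    (hnd : ω.Nondegenerate) (halt : ∀ u v, ω u v = -ω v u)
    (hsk : ∀ (x : L) (u v : V), ω ⁅x, u⁆ v = - ω u ⁅x, v⁆)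
    {D : H} (hrt : ∀ α : H.root, ∃ k : ℤ, α.1 D = (k : K) ∧ |k| ≤ 3) (hw : ∀ i, Four (B.w i D))
    (hgap : ∀ x x' : L, ⁅(D : L), x⁆ = (3 : K) • x → ⁅(D : L), x'⁆ = (3 : K) • x' → x' ≠ 0 → ∃ c : K, x = c • x')
    {p h : ℕ} (hp : Nat.card {i // B.w i D = 3 / 2} = p) (hh : Nat.card {i // B.w i D = 1 / 2} = h)
    (pp : p.Prime) (p3 : 3 ≤ p) :
    (p = 3 ∧ h = 7) ∨ (p = 5 ∧ h = 11) ∨ (p = 7 ∧ h = 21) := by
  classical
  have hint : ∀ α : H.root, ∃ k : ℤ, α.1 D = (k : K) := fun α => (hrt α).imp fun k hk => hk.1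
  obtain ⟨ℓ, hℓ⟩ := exists_lev D
  have hs : (Finset.univ.filter fun i => B.w i D = 3 / 2).card = p := by
    rw [← hp, Nat.card_eq_fintype_card, Fintype.card_subtype]
  obtain ⟨ν, C, top, inj, hone, cfg⟩ := config94 B hirr hfaith hnd hsk hℓ hint hw hs pp p3
  have hex : ∃ i, B.w i D = 3 / 2 := by
    by_contra! hcon
    rw [Finset.filter_false_of_mem (fun i _ => hcon i), Finset.card_empty] at hs
    omega
  have hI := inp98 B hℓ hint hw hirr hfaith hnd halt hsk hgap hex hone C top inj cfg pp p3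
  -- the count
  have hmu : ∀ i < p, (mu98 B (ν i) : ℝ) = 1 := by
    intro i hi
    obtain ⟨h1, h2⟩ := (top _).2 ⟨i, hi, rfl⟩
    obtain ⟨j, hj⟩ := (mem_Xw B).1 h1
    have h3 : B.w j D = 3 / 2 := by
      rw [← hj] at h2
      exact (four_lev98 B hℓ (hw j)).1.1 h2
    rw [← hj, mu_eq98 B (fun α => wt_spec B j α)]
    have h4 : PF.C.cnt B (B.w j) = 1 := (PF.C.cnt_eq_one_iff B j).2 fun k hk => hone k j (by rw [hk, h3]) h3 hk
    rw [h4, Nat.cast_one]
  have h2 := card_half98 B hℓ hw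
  rw [hh] at h2
  have h3 := hI.list (fun x => (mu98 B x : ℝ)) (fun x hx => by exact_mod_cast mu_pos98 B hx)
    (fun a ha x hx => by rw [mu_refl98 B ha hx]) (fun x hx => by rw [mu_neg98 B hnd hsk hx]) hmu
  rcases h3 with ⟨h4, h5⟩ | ⟨h4, h5⟩ | ⟨h4, h5⟩
  · refine Or.inl ⟨h4, ?_⟩
    have h6 := h2.symm.trans h5
    exact_mod_cast h6
  · refine Or.inr (Or.inl ⟨h4, ?_⟩)
    have h6 := h2.symm.trans h5
    exact_mod_cast h6
  · refine Or.inr (Or.inr ⟨h4, ?_⟩)
    have h6 := h2.symm.trans h5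
    exact_mod_cast h6

end Mod

variable {V : Type*} [AddCommGroup V] [Module ℂ V] [FiniteDimensional ℂ V]

/-- **The Lie theorem**: a simple irreducible Lie algebra of endomorphisms, skew for an alternating form, which contains
an element with the eigenvalues `3/2, 1/2, -1/2, -3/2` and the multiplicities `p, h, h, p`, `p` an odd prime, `h > 0`,
contains all skew endomorphisms, unless `(p, h)` is `(3, 7)`, `(5, 11)` or `(7, 21)`. -/
theorem four_full98 {ω : LinearMap.BilinForm ℂ V} (halt : ∀ u v, ω u v = -ω v u) (hnd : ω.Nondegenerate)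
    (L : LieSubalgebra ℂ (Module.End ℂ V)) [LieAlgebra.IsSimple ℂ L]
    (hirr : ∀ W : Submodule ℂ V, (∀ x ∈ L, ∀ u ∈ W, x u ∈ W) → W = ⊥ ∨ W = ⊤)
    (hsk : ∀ x ∈ L, ∀ u v, ω (x u) v = -ω u (x v)) {y : Module.End ℂ V} (hy : y ∈ L)
    (hdiag : (⨆ c : ℂ, Module.End.eigenspace y c) = ⊤)
    (hev : ∀ c : ℂ, Module.End.eigenspace y c ≠ ⊥ → Four c) {p h : ℕ}
    (hp : finrank ℂ (Module.End.eigenspace y (3 / 2)) = p) (hh : finrank ℂ (Module.End.eigenspace y (1 / 2)) = h)
    (pp : p.Prime) (p3 : 3 ≤ p) (hpos : 0 < h) (e1 : p = 3 → h ≠ 7) (e2 : p = 5 → h ≠ 11) (e3 : p = 7 → h ≠ 21) :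
    ∀ x : Module.End ℂ V, (∀ u v, ω (x u) v = -ω u (x v)) → x ∈ L := by
  classical
  have hy0 : y ≠ 0 := by
    rintro rfl
    have h1 : Module.End.eigenspace (0 : Module.End ℂ V) (3 / 2) = ⊥ := by
      rw [eq_bot_iff]
      intro v hv
      rw [Module.End.mem_eigenspace_iff, LinearMap.zero_apply] at hv
      have h2 := (smul_eq_zero.1 hv.symm).resolve_left (by norm_num)
      rw [h2]
      exact Submodule.zero_mem _
    rw [h1, finrank_bot] at hp
    omega
  have hVn : Nontrivial V := by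
    by_contra hcon
    rw [not_nontrivial_iff_subsingleton] at hcon
    apply hy0
    ext u
    exact Subsingleton.elim _ _
  have hk : IsKilling ℂ L := by
    refine killing_of (ω := ω) hnd ⟨?_, ?_, ?_⟩
    · intro x hx y hy
      have := L.lie_mem hx hy
      exact this
    · intro x hx u v
      exact hsk x hx u v
    · intro W hW
      exact hirr W hW
  obtain ⟨H, hH, hyH⟩ := exists_cartan_end (L := L) ⟨y, hy⟩ (semisimple_of_diag hdiag)
  have hirrR : (rootSystem H).IsIrreducible := inferInstance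
  have hne : Nonempty H.root := by
    by_contra hcon
    rw [not_nonempty_iff] at hcon
    have hN : Nontrivial H := RootPairing.IsIrreducible.nontrivial' (rootSystem H)
    have h1 : (⊤ : Submodule ℂ H) = ⊥ := by
      have h2 : (rootSystem H).corootSpan ℂ = ⊤ := RootPairing.IsRootSystem.span_coroot_eq_top
      rw [← h2, RootPairing.corootSpan, Set.range_eq_empty, Submodule.span_empty]
    exact bot_ne_top h1.symm
  have hirr' : ∀ W : Submodule ℂ V, (∀ x : L, ∀ u ∈ W, ⁅x, u⁆ ∈ W) → W = ⊥ ∨ W = ⊤ :=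
    fun W hW => hirr W fun z hz w hw => hW ⟨z, hz⟩ w hw
  have hsk' : ∀ (x : L) (u v : V), ω ⁅x, u⁆ v = - ω u ⁅x, v⁆ := by
    intro x u v
    exact hsk x x.2 u v
  have hfaith : ∀ x : L, (∀ u : V, ⁅x, u⁆ = 0) → x = 0 := by
    intro x hx
    apply Subtype.ext
    ext u
    exact hx u
  obtain ⟨n, ⟨B⟩⟩ := exists_WB (V := V) (H := H) hirr'
  have hcard : Fintype.card (Fin n) = finrank ℂ V := (finrank_eq_card_basis B.v).symm
  have hneI : Nonempty (Fin n) := by
    rw [← Fintype.card_pos_iff, hcard]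
    exact finrank_pos
  obtain ⟨D, hD⟩ : ∃ D : H, ((D : L) : Module.End ℂ V) = y := ⟨⟨⟨y, hy⟩, hyH⟩, rfl⟩
  have hlie : ∀ i, y (B.v i) = B.w i D • B.v i := fun i => by
    have h1 := B.lie_v i D
    rw [← hD]
    exact h1
  have hw : ∀ i, Four (B.w i D) := by
    intro i
    apply hev
    rw [Submodule.ne_bot_iff]
    exact ⟨B.v i, Module.End.mem_eigenspace_iff.2 (hlie i), B.v.ne_zero i⟩
  have hs' : Nat.card {i // B.w i D = 3 / 2} = p := by
    rw [← hp, finrank_eig_eq B.v y (fun i => B.w i D) hlie (3 / 2)]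
  have h0' : Nat.card {i // B.w i D = 1 / 2} = h := by
    rw [← hh, finrank_eig_eq B.v y (fun i => B.w i D) hlie (1 / 2)]
  -- the levels of the roots
  have hrt : ∀ α : H.root, ∃ k : ℤ, α.1 D = (k : ℂ) ∧ |k| ≤ 3 := by
    intro α
    obtain ⟨i, j, hij⟩ := B.root_apply hfaith α
    have h1 := hij D
    have key : ∀ a b : ℤ, B.w i D = (a : ℂ) / 2 → B.w j D = (b : ℂ) / 2 → ∀ k : ℤ, 2 * k = b - a → |k| ≤ 3 →
        ∃ k : ℤ, α.1 D = (k : ℂ) ∧ |k| ≤ 3 := by
      intro a b ha hb k hk hk3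
      refine ⟨k, ?_, hk3⟩
      have h2 : (2 : ℂ) * k = b - a := by exact_mod_cast hk
      rw [ha, hb] at h1
      linear_combination -h1 - h2 / 2
    have hF : ∀ c : ℂ, Four c → ∃ a : ℤ, c = (a : ℂ) / 2 ∧ (a = 3 ∨ a = 1 ∨ a = -1 ∨ a = -3) := by
      intro c hc
      rcases hc with h | h | h | h
      · exact ⟨3, by rw [h]; push_cast; ring, by norm_num⟩
      · exact ⟨1, by rw [h]; push_cast; ring, by norm_num⟩
      · exact ⟨-1, by rw [h]; push_cast; ring, by norm_num⟩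
      · exact ⟨-3, by rw [h]; push_cast; ring, by norm_num⟩
    obtain ⟨a, ha, ha'⟩ := hF _ (hw i)
    obtain ⟨b, hb, hb'⟩ := hF _ (hw j)
    refine key a b ha hb ((b - a) / 2) (by omega) ?_
    rw [abs_le]
    omega
  -- real levels
  obtain ⟨a, ha⟩ : ∃ a : Fin n → ℝ, ∀ i, B.w i D = (a i : ℂ) ∧ (a i = 3 / 2 ∨ a i = 1 / 2 ∨ a i = -(1 / 2) ∨
      a i = -(3 / 2)) := by
    have h1 : ∀ i, ∃ r : ℝ, B.w i D = (r : ℂ) ∧ (r = 3 / 2 ∨ r = 1 / 2 ∨ r = -(1 / 2) ∨ r = -(3 / 2)) := by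
      intro i
      rcases hw i with h | h | h | h
      · exact ⟨3 / 2, by rw [h]; push_cast; ring, by norm_num⟩
      · exact ⟨1 / 2, by rw [h]; push_cast; ring, by norm_num⟩
      · exact ⟨-(1 / 2), by rw [h]; push_cast; ring, by norm_num⟩
      · exact ⟨-(3 / 2), by rw [h]; push_cast; ring, by norm_num⟩
    choose a ha using h1
    exact ⟨a, ha⟩
  rcases MH.gap_endS98 B.v a halt hnd L hirr hsk hy (fun i => by rw [hlie i, (ha i).1]) (t := 3 / 2) (by norm_num)
    (fun i => by rcases (ha i).2 with h | h | h | h <;> rw [h] <;> norm_num) (by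
      have h1 : 0 < Nat.card {i // B.w i D = 1 / 2} := by rw [h0']; exact hpos
      obtain ⟨i, hi⟩ := (Nat.card_pos_iff.1 h1).1
      have h2 : ((a i : ℝ) : ℂ) = ((1 / 2 : ℝ) : ℂ) := by
        rw [← (ha i).1, hi]
        push_cast
        ring
      have h3 : a i = 1 / 2 := by exact_mod_cast h2
      refine ⟨i, ?_, ?_⟩ <;> rw [h3] <;> norm_num) with hgap | hfull
  swap
  · exact hfull
  exfalso
  have hD3 : ∀ x : L, ⁅(D : L), x⁆ = (3 : ℂ) • x → y * (x : Module.End ℂ V) - x * y = ((2 * (3 / 2) : ℝ) : ℂ) • (x : Module.End ℂ V) := by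
    intro x hx
    have h3 := congrArg (fun z : L => (z : Module.End ℂ V)) hx
    have h4 : ((⁅(D : L), x⁆ : L) : Module.End ℂ V) = ⁅((D : L) : Module.End ℂ V), (x : Module.End ℂ V)⁆ := rfl
    simp only [h4, hD, LieRing.of_associative_ring_bracket] at h3
    rw [h3]
    norm_num
  rcases level_half98 B hirr' hfaith hnd halt hsk' hrt hw (fun x x' hx hx' hx0 => by
      obtain ⟨c, hc⟩ := hgap x x.2 x' x'.2 (hD3 x hx) (hD3 x' hx') (fun h0 => hx0 (Subtype.ext h0))
      exact ⟨c, Subtype.ext hc⟩) hs' h0' pp p3 with ⟨h1, h2⟩ | ⟨h1, h2⟩ | ⟨h1, h2⟩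
  · exact e1 h1 h2
  · exact e2 h1 h2
  · exact e3 h1 h2

end TR
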