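import Pool.Agent.Helper55.NI.Pal

/-!
Project TR (MP_b8862a_ag): Hodge numbers whose first one is the largest are not those of a tensor product.
-/

set_option linter.unusedVariables false

namespace MH

/-- If the first number is larger than all numbers between the two ends, the numbers are indecomposable. -/
theorem indec_top98 {w a : ℤ} {r : ℤ → ℕ} (r0 : r a ≠ 0) (rr : ∀ p, a < p → r p = 0)
    (hr : ∀ p, w - a < p → p < a → r p < r a) : NI.Indec w r := by
  intro b f g hf hg hfg
  by_contra hcon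
  push Not at hcon
  obtain ⟨hf2, hg2⟩ := hcon
  have hfn : f.support.Nonempty := Finset.card_pos.1 (by omega)
  have hgn : g.support.Nonempty := Finset.card_pos.1 (by omega)
  obtain ⟨i1, hi1⟩ : ∃ i1, i1 = f.support.max' hfn := ⟨_, rfl⟩
  obtain ⟨i0, hi0⟩ : ∃ i0, i0 = f.support.min' hfn := ⟨_, rfl⟩
  obtain ⟨j1, hj1⟩ : ∃ j1, j1 = g.support.max' hgn := ⟨_, rfl⟩
  obtain ⟨j0, hj0⟩ : ∃ j0, j0 = g.support.min' hgn := ⟨_, rfl⟩
  have mi1 : f i1 ≠ 0 := Finsupp.mem_support_iff.1 (hi1 ▸ f.support.max'_mem hfn)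
  have mi0 : f i0 ≠ 0 := Finsupp.mem_support_iff.1 (hi0 ▸ f.support.min'_mem hfn)
  have mj1 : g j1 ≠ 0 := Finsupp.mem_support_iff.1 (hj1 ▸ g.support.max'_mem hgn)
  have mj0 : g j0 ≠ 0 := Finsupp.mem_support_iff.1 (hj0 ▸ g.support.min'_mem hgn)
  have li : ∀ i, f i ≠ 0 → i0 ≤ i ∧ i ≤ i1 := fun i hi => by
    rw [hi0, hi1]
    exact ⟨f.support.min'_le _ (Finsupp.mem_support_iff.2 hi), f.support.le_max' _ (Finsupp.mem_support_iff.2 hi)⟩
  have lj : ∀ j, g j ≠ 0 → j0 ≤ j ∧ j ≤ j1 := fun j hj => by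
    rw [hj0, hj1]
    exact ⟨g.support.min'_le _ (Finsupp.mem_support_iff.2 hj), g.support.le_max' _ (Finsupp.mem_support_iff.2 hj)⟩
  have ni : i0 < i1 := by
    have h1 := f.support.min'_lt_max'_of_card (by omega)
    rw [hi0, hi1]
    exact h1
  have nj : j0 < j1 := by
    have h1 := g.support.min'_lt_max'_of_card (by omega)
    rw [hj0, hj1]
    exact h1
  have ge : ∀ i j, f i ≠ 0 → f i * g j ≤ r (i + j) := by
    intro i j hi
    rw [hfg, Finsupp.sum]
    have h1 := Finset.single_le_sum (f := fun i' => f i' * g (i + j - i')) (fun _ _ => Nat.zero_le _)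
      (Finsupp.mem_support_iff.2 hi)
    simpa using h1
  have ha : a = i1 + j1 := by
    apply le_antisymm
    · rw [hfg, Finsupp.sum] at r0
      obtain ⟨i, hi, h1⟩ := Finset.exists_ne_zero_of_sum_ne_zero r0
      have h2 := li i (Finsupp.mem_support_iff.1 hi)
      have h3 := lj (a - i) (right_ne_zero_of_mul h1)
      omega
    · by_contra h1
      have h2 := rr (i1 + j1) (by omega)
      have h3 := ge i1 j1 mi1
      rw [h2] at h3
      exact mul_ne_zero mi1 mj1 (by omega)
  have hv : r a = f i1 * g j1 := by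
    rw [hfg, Finsupp.sum, Finset.sum_eq_single i1]
    · rw [ha, add_sub_cancel_left]
    · intro i hi hne
      by_contra h1
      have h2 := li i (Finsupp.mem_support_iff.1 hi)
      have h3 := lj (a - i) (right_ne_zero_of_mul h1)
      omega
    · intro h
      exact absurd (Finsupp.mem_support_iff.2 mi1) h
  have hb : b - i1 = i0 := by
    have h1 := li (b - i1) (by rw [hf]; exact mi1)
    have h2 := li (b - i0) (by rw [hf]; exact mi0)
    omega
  have hwb : w - b - j1 = j0 := by
    have h1 := lj (w - b - j1) (by rw [hg]; exact mj1)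
    have h2 := lj (w - b - j0) (by rw [hg]; exact mj0)
    omega
  have hgj : g j0 = g j1 := by rw [← hwb, hg]
  have h1 := ge i1 j0 mi1
  rw [hgj, ← hv] at h1
  have h2 := hr (i1 + j0) (by omega) (by omega)
  omega

/-- The numbers `(s, h, h, s)` are indecomposable if `h < s`, in any degrees. -/
theorem indec_four98 {w a c : ℤ} {r : ℤ → ℕ} {s h : ℕ} (hca : c < a) (ra : r a = s) (rc : r c = h)
    (rc' : r (w - c) = h) (rr : ∀ p, p ≠ a → p ≠ c → p ≠ w - c → p ≠ w - a → r p = 0) (hwc : w < 2 * c) (hh : h < s) :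
    NI.Indec w r := by
  refine indec_top98 (a := a) (by omega) (fun p hp => rr p (by omega) (by omega) (by omega) (by omega)) ?_
  intro p h1 h2
  rw [ra]
  by_cases h3 : p = c
  · rw [h3, rc]
    exact hh
  by_cases h4 : p = w - c
  · rw [h4, rc']
    exact hh
  rw [rr p (by omega) h3 h4 (by omega)]
  omega

/-- The numerical condition for `(p, h, h, p)`, `p` an odd prime. -/
theorem num_four98 {N s h : ℕ} (hs : s.Prime) (hs2 : s ≠ 2) (hN : N = 2 * s + 2 * h) {d k : ℕ} (hd : 2 ≤ d)
    (hk : 2 ≤ k) (hNd : N = d ^ k) (hdv : d ^ (k - 1) ∣ s) : False := by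
  have h1 : d ∣ s := (dvd_pow_self d (by omega)).trans hdv
  have h2 : d = s := by
    rcases (Nat.dvd_prime hs).1 h1 with h | h
    · omega
    · exact h
  have h3 : Odd d := by
    rw [h2]
    exact hs.odd_of_ne_two hs2
  have h4 : Odd N := by
    rw [hNd]
    exact h3.pow
  rw [hN] at h4
  obtain ⟨m, hm⟩ := h4
  omega

end MH
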