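import Pool.Agent.Helper98.TR.Cub

/-!
Project TR (MP_b8862a_ag), Lie inputs: the product of a root vector of level one and a root vector of level two.
-/

set_option linter.unusedSectionVars false
set_option linter.unusedVariables false

open Module LieModule LieAlgebra LieAlgebra.IsKilling MTP.MF PF PF.CC

namespace TR

variable {K : Type*} [Field K] [CharZero K] [IsAlgClosed K]
  {L : Type*} [LieRing L] [LieAlgebra K L] [FiniteDimensional K L] [IsKilling K L]
  {H : LieSubalgebra K L} [H.IsCartanSubalgebra]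
  {V : Type*} [AddCommGroup V] [Module K V] [FiniteDimensional K V]
  [LieRingModule L V] [LieModule K L V] {I : Type*} [Fintype I] (B : WB (V := V) H I) {D : H}
variable {ω : LinearMap.BilinForm K V}

/-- a nonzero root vector of level two does not kill the lowest level -/
theorem move98 (hw : ∀ i, Four (B.w i D)) (hnd : ω.Nondegenerate)
    (hsk : ∀ (x : L) (u v : V), ω ⁅x, u⁆ v = - ω u ⁅x, v⁆)
    (hfaith : ∀ x : L, (∀ u : V, ⁅x, u⁆ = 0) → x = 0) {β : H → K} {y : L} (hy : y ∈ rootSpace H β)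
    (hβ : β D = 2) (hy0 : y ≠ 0) :
    ∃ i, B.w i D = 3 / 2 ∧ ∃ v : V, v ≠ 0 ∧ IsW H (fun h => -B.w i h) v ∧ ⁅y, v⁆ ≠ 0 := by
  classical
  by_contra! hcon
  apply hy0
  apply hfaith
  -- all vectors of the lowest level are killed
  have hlow : ∀ i, B.w i D = -(3 / 2) → ⁅y, B.v i⁆ = 0 := by
    intro i hi
    obtain ⟨j, hj⟩ := PF.CC.exists_neg B hnd hsk i
    refine hcon j ?_ (B.v i) (B.v.ne_zero i) ?_
    · rw [hj, LinearMap.neg_apply, hi, neg_neg]
    · intro h
      rw [B.lie_v]
      congr 1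
      beta_reduce
      rw [hj, LinearMap.neg_apply, neg_neg]
  have hall : ∀ i, ⁅y, B.v i⁆ = 0 := by
    intro i
    by_contra hne
    have h1 : IsW H (fun h => β h + B.w i h) ⁅y, B.v i⁆ := IsW.lie (B.lie_v i) hy
    obtain ⟨j, hj⟩ := h1.index B hne
    have h2 := hj D
    rw [hβ] at h2
    have hz : ∀ c : ℤ, (c : K) = 0 → c = 0 := fun c hc => by exact_mod_cast hc
    rcases hw i with h3 | h3 | h3 | h3
    · rw [h3] at h2
      rcases hw j with h4 | h4 | h4 | h4 <;> rw [h4] at h2
      · have := hz 4 (by push_cast; linear_combination -2 * h2)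
        omega
      · have := hz 6 (by push_cast; linear_combination -2 * h2)
        omega
      · have := hz 8 (by push_cast; linear_combination -2 * h2)
        omega
      · have := hz 10 (by push_cast; linear_combination -2 * h2)
        omega
    · rw [h3] at h2
      rcases hw j with h4 | h4 | h4 | h4 <;> rw [h4] at h2
      · have := hz 2 (by push_cast; linear_combination -2 * h2)
        omega
      · have := hz 4 (by push_cast; linear_combination -2 * h2)
        omega
      · have := hz 6 (by push_cast; linear_combination -2 * h2)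
        omega
      · have := hz 8 (by push_cast; linear_combination -2 * h2)
        omega
    · -- level `-1/2`: use the form
      have hjD : B.w j D = 3 / 2 := by
        rw [h2, h3]
        norm_num
      have h5 : ∀ v, ω v ⁅y, B.v i⁆ = 0 := by
        intro v
        rw [← B.v.sum_repr v, map_sum, LinearMap.sum_apply]
        refine Finset.sum_eq_zero fun k _ => ?_
        rw [map_smul, LinearMap.smul_apply]
        by_cases hk : ω (B.v k) ⁅y, B.v i⁆ = 0
        · rw [hk, smul_zero]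
        · exfalso
          have h6 := pair_zero98 B hsk h1 hk D
          have h7 : B.w k D = -(3 / 2) := by
            rw [h6]
            beta_reduce
            rw [hβ, h3]
            norm_num
          have h8 := hsk y (B.v k) (B.v i)
          rw [hlow k h7, map_zero, LinearMap.zero_apply] at h8
          exact hk (neg_eq_zero.1 h8.symm)
      exact hne (hnd.2 _ h5)
    · exact hne (hlow i h3)
  intro u
  rw [← B.v.sum_repr u, lie_sum]
  refine Finset.sum_eq_zero fun i _ => ?_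
  rw [lie_smul, hall, smul_zero]

/-- **For every root `β` of level two there are a root `α` of level one and two different weights of the top level with
`α + β = ν + ν'`** (no roots of level three). -/
theorem pair98 (hint : ∀ α : H.root, ∃ k : ℤ, α.1 D = (k : K)) (hw : ∀ i, Four (B.w i D))
    (hirr : ∀ W : Submodule K V, (∀ x : L, ∀ u ∈ W, ⁅x, u⁆ ∈ W) → W = ⊥ ∨ W = ⊤)
    (hnd : ω.Nondegenerate) (halt : ∀ u v, ω u v = -ω v u)
    (hsk : ∀ (x : L) (u v : V), ω ⁅x, u⁆ v = - ω u ⁅x, v⁆)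
    (hfaith : ∀ x : L, (∀ u : V, ⁅x, u⁆ = 0) → x = 0) (h3 : ∀ α : H.root, α.1 D ≠ 3)
    (hone : ∀ i, B.w i D = 3 / 2 → One B i) (β : H.root) (hβ : β.1 D = 2) :
    ∃ i j, B.w i D = 3 / 2 ∧ B.w j D = 3 / 2 ∧ i ≠ j ∧ ∃ α : H.root, α.1 D = 1 ∧
      ∀ h, α.1 h + β.1 h = B.w i h + B.w j h := by
  obtain ⟨y, hy, hy0⟩ := β.1.exists_ne_zero
  obtain ⟨i, hi, v, hv0, hv, hyv⟩ := move98 B hw hnd hsk hfaith hy hβ hy0
  have h1 : IsW H (fun h => β.1 h + -B.w i h) ⁅y, v⁆ := hv.lie hy
  obtain ⟨α, k, hk, hα, x, hx, hxy⟩ := low_ex98 B hint hirr (c := ((1 : ℤ) : K) / 2) (u := ⁅y, v⁆) (by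
    rw [h1 D]
    congr 1
    beta_reduce
    rw [hβ, hi]
    push_cast
    ring) hyv (i := i) (by
    intro k h2
    rw [hi] at h2
    have h4 : (2 : K) = ((-2 * k : ℤ) : K) := by
      push_cast
      linear_combination 2 * h2
    have h5 : (2 : ℤ) = -2 * k := by exact_mod_cast h4
    omega)
  have h2 := h1.lie hx
  obtain ⟨j, hj⟩ := h2.index B hxy
  have hk1 : k = 1 ∧ B.w j D = 3 / 2 := by
    have h4 := hj D
    rw [hα, hβ, hi] at h4
    have h5 : ∀ c : ℤ, B.w j D = (c : K) / 2 → 1 + 2 * k = c := by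
      intro c hc
      have h6 : ((1 + 2 * k : ℤ) : K) = (c : K) := by
        push_cast
        rw [hc] at h4
        linear_combination -2 * h4
      exact_mod_cast h6
    rcases hw j with h6 | h6 | h6 | h6
    · have h7 := h5 3 (by rw [h6]; push_cast; ring)
      exact ⟨by omega, h6⟩
    · have h7 := h5 1 (by rw [h6]; push_cast; ring)
      omega
    · have h7 := h5 (-1) (by rw [h6]; push_cast; ring)
      omega
    · have h7 := h5 (-3) (by rw [h6]; push_cast; ring)
      omega
  have hα1 : α.1 D = 1 := by rw [hα, hk1.1, Int.cast_one]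
  refine ⟨i, j, hi, hk1.2, ?_, α, hα1, fun h => by rw [hj h]; ring⟩
  intro hij
  have hxy0 : ⁅x, y⁆ = 0 := lie_zero98 hx hy (c := 3) (by rw [hα1, hβ]; norm_num) three_ne_zero h3
  have h4 : IsW H (fun h => B.w i h) ⁅x, ⁅y, v⁆⁆ := by
    intro h
    rw [h2 h]
    congr 1
    exact (hj h).symm.trans (by rw [hij])
  obtain ⟨d, hd⟩ := h4.eq_smul B (hone i hi)
  have h5 := anti98 halt hsk hxy0 v v
  have h6 : (2 : K) * ω ⁅x, ⁅y, v⁆⁆ v = 0 := by linear_combination h5
  have h7 := (mul_eq_zero.1 h6).resolve_left two_ne_zero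
  rw [hd, map_smul, LinearMap.smul_apply, smul_eq_mul] at h7
  rcases mul_eq_zero.1 h7 with h8 | h8
  · rw [h8, zero_smul] at hd
    exact hxy hd
  · exact pair_ne98 B hnd hsk (hone i hi) hv hv0 h8

/-- The antisymmetry on a line: no `α + β = 2 ν` with `⟨ν, β^v⟩ > 0` and `⟨ν - β, α^v⟩ > 0`. -/
theorem line98 (hnd : ω.Nondegenerate) (halt : ∀ u v, ω u v = -ω v u)
    (hsk : ∀ (x : L) (u v : V), ω ⁅x, u⁆ v = - ω u ⁅x, v⁆) (h3 : ∀ α : H.root, α.1 D ≠ 3)
    {i : I} (hone : One B i) {α β : H.root} (hα : α.1 D = 1) (hβ : β.1 D = 2)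
    (hsum : ∀ h, α.1 h + β.1 h = 2 * B.w i h) (hb : 0 < wt B i β)
    (ha : rt (rootSystem H) β α < wt B i α) : False := by
  obtain ⟨v, hv0, hv, -⟩ := exists_opp98 B hnd hsk i
  obtain ⟨y, fy, hty, hy, -⟩ := exists_triple (H := H) β
  obtain ⟨x, fx, htx, hx, -⟩ := exists_triple (H := H) α
  have hyv : ⁅y, v⁆ ≠ 0 := by
    intro h0
    apply hv0
    refine e_inj hty (m := -wt B i β) (by omega) ?_ h0
    rw [hv]
    congr 1
    beta_reduce
    rw [wt_spec, Int.cast_neg]
  have h1 : IsW H (fun h => β.1 h + -B.w i h) ⁅y, v⁆ := hv.lie hy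
  have hxy : ⁅x, ⁅y, v⁆⁆ ≠ 0 := by
    intro h0
    apply hyv
    refine e_inj htx (m := rt (rootSystem H) β α - wt B i α) (by omega) ?_ h0
    rw [h1]
    congr 1
    beta_reduce
    rw [wt_spec, rt_spec, Int.cast_sub]
    ring
  have hxy0 : ⁅x, y⁆ = 0 := lie_zero98 hx hy (c := 3) (by rw [hα, hβ]; norm_num) three_ne_zero h3
  have h4 : IsW H (fun h => B.w i h) ⁅x, ⁅y, v⁆⁆ := by
    intro h
    rw [(h1.lie hx) h]
    congr 1
    beta_reduce
    linear_combination hsum h
  obtain ⟨d, hd⟩ := h4.eq_smul B hone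
  have h5 := anti98 halt hsk hxy0 v v
  have h6 : (2 : K) * ω ⁅x, ⁅y, v⁆⁆ v = 0 := by linear_combination h5
  have h7 := (mul_eq_zero.1 h6).resolve_left two_ne_zero
  rw [hd, map_smul, LinearMap.smul_apply, smul_eq_mul] at h7
  rcases mul_eq_zero.1 h7 with h8 | h8
  · rw [h8, zero_smul] at hd
    exact hxy hd
  · exact pair_ne98 B hnd hsk hone hv hv0 h8

/-- Every weight of level `1/2` is a weight of the top level minus a root of level one. -/
theorem half98 (hint : ∀ α : H.root, ∃ k : ℤ, α.1 D = (k : K)) (hw : ∀ i, Four (B.w i D))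
    (hirr : ∀ W : Submodule K V, (∀ x : L, ∀ u ∈ W, ⁅x, u⁆ ∈ W) → W = ⊥ ∨ W = ⊤)
    (hex : ∃ i, B.w i D = 3 / 2) {i : I} (hi : B.w i D = 1 / 2) :
    ∃ j, B.w j D = 3 / 2 ∧ ∃ α : H.root, α.1 D = 1 ∧ ∀ h, B.w j h = B.w i h + α.1 h := by
  obtain ⟨i0, hi0⟩ := hex
  obtain ⟨α, k, hk, hα, x, hx, hxv⟩ := low_ex98 B hint hirr (c := ((1 : ℤ) : K) / 2) (u := B.v i) (by
    rw [B.lie_v, hi, Int.cast_one]) (B.v.ne_zero i) (i := i0) (by
    intro k h2
    rw [hi0] at h2
    have h4 : (2 : K) = ((-2 * k : ℤ) : K) := by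
      push_cast
      linear_combination 2 * h2
    have h5 : (2 : ℤ) = -2 * k := by exact_mod_cast h4
    omega)
  have h2 : IsW H (fun h => α.1 h + B.w i h) ⁅x, B.v i⁆ := IsW.lie (B.lie_v i) hx
  obtain ⟨j, hj⟩ := h2.index B hxv
  have h4 := hj D
  rw [hα, hi] at h4
  have h5 : ∀ c : ℤ, B.w j D = (c : K) / 2 → 1 + 2 * k = c := by
    intro c hc
    have h6 : ((1 + 2 * k : ℤ) : K) = (c : K) := by
      push_cast
      rw [hc] at h4
      linear_combination -2 * h4
    exact_mod_cast h6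
  rcases hw j with h6 | h6 | h6 | h6
  · have h7 := h5 3 (by rw [h6]; push_cast; ring)
    have h8 : k = 1 := by omega
    exact ⟨j, h6, α, by rw [hα, h8, Int.cast_one], fun h => by rw [hj h, add_comm]⟩
  · have h7 := h5 1 (by rw [h6]; push_cast; ring)
    omega
  · have h7 := h5 (-1) (by rw [h6]; push_cast; ring)
    omega
  · have h7 := h5 (-3) (by rw [h6]; push_cast; ring)
    omega

end TR
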