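import Pool.Agent.Helper98.TR.Low

/-!
Project TR (MP_b8862a_ag), Lie inputs: products of two and of three root vectors from the lowest to the highest level.
-/

set_option linter.unusedSectionVars false
set_option linter.unusedVariables false

open Module LieModule LieAlgebra LieAlgebra.IsKilling MTP.MF PF PF.CC

namespace TR

variable {K : Type*} [Field K] [CharZero K] [IsAlgClosed K]
  {L : Type*} [LieRing L] [LieAlgebra K L] [FiniteDimensional K L] [IsKilling K L]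
  {H : LieSubalgebra K L} [H.IsCartanSubalgebra]
  {V : Type*} [AddCommGroup V] [Module K V] [FiniteDimensional K V]
  [LieRingModule L V] [LieModule K L V] {I : Type*} [Fintype I] (B : WB (V := V) H I) {D : H}
variable {ω : LinearMap.BilinForm K V}

/-- from the lowest to the highest level, if the levels of the roots are `-1, 0, 1` -/
theorem chain98 (hrt : ∀ α : H.root, PG.Three (α.1 D))
    (hirr : ∀ W : Submodule K V, (∀ x : L, ∀ u ∈ W, ⁅x, u⁆ ∈ W) → W = ⊥ ∨ W = ⊤)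
    {i : I} (hi : B.w i D = 3 / 2) {v : V} (hv : IsW H (fun h => -B.w i h) v) (hv0 : v ≠ 0) :
    ∃ (α β γ : H.root) (x y z : L), α.1 D = 1 ∧ β.1 D = 1 ∧ γ.1 D = 1 ∧ x ∈ rootSpace H α.1 ∧ y ∈ rootSpace H β.1 ∧
      z ∈ rootSpace H γ.1 ∧ ⁅x, ⁅y, ⁅z, v⁆⁆⁆ ≠ 0 := by
  have hint : ∀ α : H.root, ∃ k : ℤ, α.1 D = (k : K) := fun α => by
    obtain ⟨k, hk, -⟩ := (hrt α).int
    exact ⟨k, hk⟩
  have hone : ∀ (α : H.root) (k : ℤ), 0 < k → α.1 D = (k : K) → α.1 D = 1 := by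
    intro α k hk hα
    obtain ⟨k', hk', h3⟩ := (hrt α).int
    have h4 : k = k' := by
      have : (k : K) = (k' : K) := by rw [← hα, ← hk']
      exact_mod_cast this
    have h5 : k = 1 := by omega
    rw [hα, h5, Int.cast_one]
  have hlev : ∀ c : ℤ, c < 3 → ∀ k : ℕ, B.w i D ≠ (c : K) / 2 - k := by
    intro c hc k h1
    rw [hi] at h1
    have h2 : (3 : K) = (c : K) - 2 * k := by linear_combination 2 * h1
    have h3 : (3 : ℤ) = c - 2 * k := by exact_mod_cast h2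
    omega
  obtain ⟨γ, k1, hk1, hγ1, z, hz, hzv⟩ := low_ex98 B hint hirr (c := ((-3 : ℤ) : K) / 2) (u := v) (by
    rw [hv D]
    congr 1
    beta_reduce
    rw [hi]
    push_cast
    ring) hv0 (i := i) (hlev _ (by norm_num))
  have hγ := hone γ k1 hk1 hγ1
  obtain ⟨β, k2, hk2, hβ1, y, hy, hyv⟩ := low_ex98 B hint hirr (c := ((-1 : ℤ) : K) / 2) (u := ⁅z, v⁆) (by
    rw [(hv.lie hz) D]
    congr 1
    beta_reduce
    rw [hi, hγ]
    push_cast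
    ring) hzv (i := i) (hlev _ (by norm_num))
  have hβ := hone β k2 hk2 hβ1
  obtain ⟨α, k3, hk3, hα1, x, hx, hxv⟩ := low_ex98 B hint hirr (c := ((1 : ℤ) : K) / 2) (u := ⁅y, ⁅z, v⁆⁆) (by
    rw [((hv.lie hz).lie hy) D]
    congr 1
    beta_reduce
    rw [hi, hγ, hβ]
    push_cast
    ring) hyv (i := i) (hlev _ (by norm_num))
  exact ⟨α, β, γ, x, y, z, hone α k3 hk3 hα1, hβ, hγ, hx, hy, hz, hxv⟩

/-- `ν + ν'` is a sum of three roots of level one (levels of the roots `-1, 0, 1`) -/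
theorem sum_three98 (hrt : ∀ α : H.root, PG.Three (α.1 D))
    (hirr : ∀ W : Submodule K V, (∀ x : L, ∀ u ∈ W, ⁅x, u⁆ ∈ W) → W = ⊥ ∨ W = ⊤)
    (hnd : ω.Nondegenerate) (hsk : ∀ (x : L) (u v : V), ω ⁅x, u⁆ v = - ω u ⁅x, v⁆) {i : I} (hi : B.w i D = 3 / 2) :
    ∃ j, B.w j D = 3 / 2 ∧ ∃ α β γ : H.root, α.1 D = 1 ∧ β.1 D = 1 ∧ γ.1 D = 1 ∧
      ∀ h, B.w i h + B.w j h = α.1 h + β.1 h + γ.1 h := by
  obtain ⟨v, hv0, hv, -⟩ := exists_opp98 B hnd hsk i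
  obtain ⟨α, β, γ, x, y, z, hα, hβ, hγ, hx, hy, hz, hne⟩ := chain98 B hrt hirr hi hv hv0
  have h1 := ((hv.lie hz).lie hy).lie hx
  obtain ⟨j, hj⟩ := h1.index B hne
  refine ⟨j, ?_, α, β, γ, hα, hβ, hγ, fun h => ?_⟩
  · rw [hj, hα, hβ, hγ, hi]
    ring
  · rw [hj h]
    ring

/-- **`2 ν` is a sum of three roots of level one**, for some weight `ν` of the top level, if the differences of the
weights of the top level are roots (levels of the roots `-1, 0, 1`). -/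
theorem cubic98 (hrt : ∀ α : H.root, PG.Three (α.1 D))
    (hirr : ∀ W : Submodule K V, (∀ x : L, ∀ u ∈ W, ⁅x, u⁆ ∈ W) → W = ⊥ ∨ W = ⊤)
    (hnd : ω.Nondegenerate) (halt : ∀ u v, ω u v = -ω v u)
    (hsk : ∀ (x : L) (u v : V), ω ⁅x, u⁆ v = - ω u ⁅x, v⁆)
    (hone : ∀ i, B.w i D = 3 / 2 → One B i)
    (hdif : ∀ i j, B.w i D = 3 / 2 → B.w j D = 3 / 2 → i ≠ j →
      ∃ α : H.root, (∀ h, α.1 h = B.w i h - B.w j h) ∧ 0 < wt B i α)
    (hex : ∃ i, B.w i D = 3 / 2) :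
    ∃ i, B.w i D = 3 / 2 ∧ ∃ α β γ : H.root, α.1 D = 1 ∧ β.1 D = 1 ∧ γ.1 D = 1 ∧
      ∀ h, B.w i h + B.w i h = α.1 h + β.1 h + γ.1 h := by
  obtain ⟨j, hj⟩ := hex
  obtain ⟨v, hv0, hv, hv1⟩ := exists_opp98 B hnd hsk j
  obtain ⟨α, β, γ, x, y, z, hα, hβ, hγ, hx, hy, hz, hne⟩ := chain98 B hrt hirr hj hv hv0
  have h1 := ((hv.lie hz).lie hy).lie hx
  obtain ⟨i, hi⟩ := h1.index B hne
  have hiD : B.w i D = 3 / 2 := by
    rw [hi, hα, hβ, hγ, hj]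
    ring
  have hsum : ∀ h, B.w i h + B.w j h = α.1 h + β.1 h + γ.1 h := fun h => by
    rw [hi h]
    ring
  by_cases hij : i = j
  · exact ⟨i, hiD, α, β, γ, hα, hβ, hγ, fun h => by rw [← hsum, hij]⟩
  obtain ⟨a, ha, hpos⟩ := hdif i j hiD hj hij
  have haD : a.1 D = 0 := by rw [ha, hiD, hj, sub_self]
  obtain ⟨e, f, ht, he, hf⟩ := exists_triple (H := H) a
  obtain ⟨v', hv'0, hv', -⟩ := exists_opp98 B hnd hsk i
  -- `e v'` spans the weight space of `- w j`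
  have hev0 : ⁅e, v'⁆ ≠ 0 := by
    intro h0
    apply hv'0
    refine e_inj ht (m := -wt B i a) (by omega) ?_ h0
    rw [hv']
    congr 1
    beta_reduce
    rw [wt_spec, Int.cast_neg]
  have hev : IsW H (fun h => -B.w j h) ⁅e, v'⁆ := by
    intro h
    rw [(hv'.lie he) h]
    congr 1
    beta_reduce
    rw [ha h]
    ring
  obtain ⟨c, hc⟩ := hv1 (hone j hj) _ hev
  have hc0 : c ≠ 0 := by
    rintro rfl
    rw [zero_smul] at hc
    exact hev0 hc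
  -- the three brackets vanish
  have hz2 : ∀ γ : H.root, γ.1 D ≠ 2 := by
    intro γ h2
    rcases hrt γ with h3 | h3 | h3 <;> rw [h2] at h3
    · exact two_ne_zero h3
    · have : (1 : K) = 0 := by linear_combination h3
      exact one_ne_zero this
    · have : (3 : K) = 0 := by linear_combination h3
      exact three_ne_zero this
  have hxy : ⁅x, y⁆ = 0 := lie_zero98 hx hy (c := 2) (by rw [hα, hβ]; norm_num) two_ne_zero hz2
  have hxz : ⁅x, z⁆ = 0 := lie_zero98 hx hz (c := 2) (by rw [hα, hγ]; norm_num) two_ne_zero hz2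
  have hyz : ⁅y, z⁆ = 0 := lie_zero98 hy hz (c := 2) (by rw [hβ, hγ]; norm_num) two_ne_zero hz2
  have hzev : ω ⁅x, ⁅y, ⁅z, ⁅e, v'⁆⁆⁆⁆ v' ≠ 0 := by
    have h2 : IsW H (fun h => B.w i h) ⁅x, ⁅y, ⁅z, v⁆⁆⁆ := by
      intro h
      rw [h1 h]
      congr 1
      exact (hi h).symm
    obtain ⟨d, hd⟩ := h2.eq_smul B (hone i hiD)
    have hd0 : d ≠ 0 := by
      rintro rfl
      rw [zero_smul] at hd
      exact hne hd
    rw [hc, lie_smul, lie_smul, lie_smul, hd, map_smul, map_smul, LinearMap.smul_apply, LinearMap.smul_apply]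
    exact smul_ne_zero hc0 (smul_ne_zero hd0 (pair_ne98 B hnd hsk (hone i hiD) hv' hv'0))
  have hsplit : ⁅⁅e, x⁆, ⁅y, ⁅z, v'⁆⁆⁆ + ⁅x, ⁅⁅e, y⁆, ⁅z, v'⁆⁆⁆ + ⁅x, ⁅y, ⁅⁅e, z⁆, v'⁆⁆⁆ =
      ⁅e, ⁅x, ⁅y, ⁅z, v'⁆⁆⁆⁆ - ⁅x, ⁅y, ⁅z, ⁅e, v'⁆⁆⁆⁆ := by
    rw [leibniz_lie e x, leibniz_lie e y, leibniz_lie e z, lie_add, lie_add, lie_add]
    abel
  have hne2 : ⁅⁅e, x⁆, ⁅y, ⁅z, v'⁆⁆⁆ + ⁅x, ⁅⁅e, y⁆, ⁅z, v'⁆⁆⁆ + ⁅x, ⁅y, ⁅⁅e, z⁆, v'⁆⁆⁆ ≠ 0 := by
    rw [hsplit]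
    intro h0
    have h2 := congrArg (fun u => ω u v') h0
    simp only [map_sub, LinearMap.sub_apply, map_zero, LinearMap.zero_apply] at h2
    rw [hsk e, sym98 halt hsk hxy hxz hyz v' ⁅e, v'⁆] at h2
    apply hzev
    have h3 : (2 : K) * ω ⁅x, ⁅y, ⁅z, ⁅e, v'⁆⁆⁆⁆ v' = 0 := by linear_combination -h2
    exact (mul_eq_zero.1 h3).resolve_left two_ne_zero
  have hroot : ∀ (ψ : H.root) (t : L), t ∈ rootSpace H ψ.1 → ψ.1 D = 1 → ⁅e, t⁆ ≠ 0 →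
      ∃ ψ' : H.root, ψ'.1 D = 1 ∧ ∀ h, ψ'.1 h = a.1 h + ψ.1 h := by
    intro ψ t ht hψ h0
    obtain ⟨ψ', hψ'⟩ := PG.exists_root (D := D) (lie_mem_genWeightSpace_of_mem_genWeightSpace he ht) h0 (by
      rw [Pi.add_apply, haD, hψ, zero_add]
      exact one_ne_zero)
    refine ⟨ψ', ?_, fun h => ?_⟩
    · rw [hψ', Pi.add_apply, haD, hψ, zero_add]
    · rw [hψ', Pi.add_apply]
  refine ⟨i, hiD, ?_⟩
  by_cases k1 : ⁅e, x⁆ = 0
  · by_cases k2 : ⁅e, y⁆ = 0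
    · by_cases k3 : ⁅e, z⁆ = 0
      · exfalso
        apply hne2
        rw [k1, k2, k3]
        simp
      · obtain ⟨ψ, hψ, hψ'⟩ := hroot γ z hz hγ k3
        exact ⟨α, β, ψ, hα, hβ, hψ, fun h => by rw [hψ' h, ha h]; linear_combination hsum h⟩
    · obtain ⟨ψ, hψ, hψ'⟩ := hroot β y hy hβ k2
      exact ⟨α, ψ, γ, hα, hψ, hγ, fun h => by rw [hψ' h, ha h]; linear_combination hsum h⟩
  · obtain ⟨ψ, hψ, hψ'⟩ := hroot α x hx hα k1
    exact ⟨ψ, β, γ, hψ, hβ, hγ, fun h => by rw [hψ' h, ha h]; linear_combination hsum h⟩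

end TR
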