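import Pool.Agent.Helper98.TR.Inp
import Pool.Agent.Helper98.PG.Setup
import Pool.Agent.Helper14.PF.SpCore2
import Pool.Agent.Helper95.TR.TR4

/-!
Project TR (MP_b8862a_ag): the multiplicities of the weights, and the number of the weights of the level `1/2`.
-/

set_option linter.unusedSectionVars false
set_option linter.unusedVariables false

open Module LieModule LieAlgebra LieAlgebra.IsKilling MTP.MF PF PF.CC PG

namespace TR

variable {K : Type*} [Field K] [CharZero K] [IsAlgClosed K]
  {L : Type*} [LieRing L] [LieAlgebra K L] [FiniteDimensional K L] [IsKilling K L]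
  {H : LieSubalgebra K L} [H.IsCartanSubalgebra]
  {V : Type*} [AddCommGroup V] [Module K V] [FiniteDimensional K V]
  [LieRingModule L V] [LieModule K L V] {I : Type*} [Fintype I] (B : WB (V := V) H I) {D : H}
  {ℓ : EuclideanSpace ℝ H.root →ₗ[ℝ] ℝ}

open Classical in
/-- The multiplicity of a vector as a weight. -/
noncomputable def mu98 (x : EuclideanSpace ℝ H.root) : ℕ := (Finset.univ.filter fun i => vec (wt B i) = x).card

theorem mu_eq98 {χ : Dual K H} {f : H.root → ℤ} (h : ∀ α : H.root, χ (coroot α.1) = (f α : K)) :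
    mu98 B (vec f) = PF.C.cnt B χ := by
  classical
  unfold mu98 PF.C.cnt
  congr 1
  ext i
  simp only [Finset.mem_filter, Finset.mem_univ, true_and]
  constructor
  · intro h1
    have h2 := vec_inj h1
    apply dual_ext
    intro α
    rw [wt_spec, h2, h]
  · intro h1
    congr 1
    funext α
    have h2 := h α
    rw [← h1, wt_spec] at h2
    exact_mod_cast h2

theorem mu_pos98 {x : EuclideanSpace ℝ H.root} (hx : x ∈ Xw B) : 1 ≤ mu98 B x := by
  classical
  obtain ⟨i, hi⟩ := (mem_Xw B).1 hx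
  exact Finset.card_pos.2 ⟨i, Finset.mem_filter.2 ⟨Finset.mem_univ _, hi⟩⟩

theorem mu_refl98 {a x : EuclideanSpace ℝ H.root} (ha : a ∈ Ph (rootSystem H)) (hx : x ∈ Xw B) :
    mu98 B (x - co a x • a) = mu98 B x := by
  obtain ⟨α, rfl⟩ := (mem_Ph _).1 ha
  obtain ⟨i, rfl⟩ := (mem_Xw B).1 hx
  rw [co_vec _ (wt_wt B i) α, ← vec_sub_smul, mu_eq98 B (fun α => wt_spec B i α),
    mu_eq98 B (χ := (rootSystem H).reflection α (B.w i)), PF.C.cnt_refl]
  intro β
  have h1 : (rootSystem H).reflection α (B.w i) = B.w i - (B.w i (coroot α.1)) • (rootSystem H).root α := by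
    rw [RootPairing.reflection_apply]
    rfl
  rw [h1, LinearMap.sub_apply, LinearMap.smul_apply, wt_spec, wt_spec]
  have h2 : (rootSystem H).root α (coroot β.1) = (rt (rootSystem H) α β : K) := rt_spec α β
  rw [h2]
  simp

theorem mu_neg98 {ω : LinearMap.BilinForm K V} (hnd : ω.Nondegenerate)
    (hsk : ∀ (x : L) (u v : V), ω ⁅x, u⁆ v = - ω u ⁅x, v⁆) {x : EuclideanSpace ℝ H.root} (hx : x ∈ Xw B) :
    mu98 B (-x) = mu98 B x := by
  classical
  obtain ⟨i, rfl⟩ := (mem_Xw B).1 hx
  rw [← vec_neg, mu_eq98 B (fun α => wt_spec B i α), mu_eq98 B (χ := -B.w i)]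
  · unfold PF.C.cnt
    have h1 := B.sum_symm hnd hsk fun μ => if μ = B.w i then 1 else 0
    have h2 : ∀ j, ((-B.w j) = B.w i) = (B.w j = -B.w i) := fun j => by rw [neg_eq_iff_eq_neg]
    simp only [h2] at h1
    rw [Finset.sum_boole, Finset.sum_boole] at h1
    exact_mod_cast h1.symm
  · intro α
    rw [LinearMap.neg_apply, wt_spec]
    simp

open Classical in
/-- The number of the indices of the level `1/2`. -/
theorem card_half98 (hℓ : IsLev D ℓ) (hw : ∀ i, Four (B.w i D)) :
    ∑ x ∈ (Xw B).filter (fun x => ℓ x = 1 / 2), (mu98 B x : ℝ) = Nat.card {i // B.w i D = 1 / 2} := by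
  have h1 := Finset.card_eq_sum_card_fiberwise (s := Finset.univ.filter fun i => B.w i D = 1 / 2)
    (t := (Xw B).filter (fun x => ℓ x = 1 / 2)) (f := fun i => vec (wt B i)) (by
      intro i hi
      rw [Finset.mem_coe, Finset.mem_filter] at hi ⊢
      exact ⟨(mem_Xw B).2 ⟨i, rfl⟩, (four_lev98 B hℓ (hw i)).2.1.2 hi.2⟩)
  rw [Nat.card_eq_fintype_card, Fintype.card_subtype, h1]
  push_cast
  refine Finset.sum_congr rfl fun x hx => ?_
  rw [Finset.mem_filter] at hx
  unfold mu98
  congr 2
  ext i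
  simp only [Finset.mem_filter, Finset.mem_univ, true_and]
  constructor
  · intro hi
    refine ⟨?_, hi⟩
    apply (four_lev98 B hℓ (hw i)).2.1.1
    rw [hi]
    exact hx.2
  · rintro ⟨-, hi⟩
    exact hi

end TR
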